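import Mathlib

/-! Local algebra: Rankin-Selberg coefficients and power sums of Satake parameters. -/

set_option autoImplicit false

namespace Pool.Agent.W189.RS

open PowerSeries

/-- the power sum `∑ α_i^k` -/
noncomputable def pw {n : ℕ} (α : Fin n → ℂ) (k : ℕ) : ℂ := ∑ i, α i ^ k

/-- the coefficient of `X^k` of `∏_{i,j} (1 - α_i conj(α_j) X)⁻¹` -/
noncomputable def rsLoc {n : ℕ} (α : Fin n → ℂ) (k : ℕ) : ℂ :=
  coeff k (∏ i, ∏ j, (1 - C (α i * (starRingEnd ℂ) (α j)) * X)⁻¹)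

theorem geo_coeff (b : ℂ) (k : ℕ) : coeff k ((1 - C b * X : ℂ⟦X⟧)⁻¹) = b ^ k := by
  have h1 : (1 - C b * X : ℂ⟦X⟧)⁻¹ = PowerSeries.mk fun k => b ^ k := by
    rw [PowerSeries.inv_eq_iff_mul_eq_one (by simp)]
    ext n
    rcases n with _ | n
    · simp [mul_sub, ← mul_assoc]
    · rw [mul_sub, mul_one, map_sub, ← mul_assoc, PowerSeries.coeff_succ_mul_X,
        PowerSeries.coeff_mul_C, PowerSeries.coeff_mk, PowerSeries.coeff_mk,
        PowerSeries.coeff_one, if_neg (Nat.succ_ne_zero n)]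
      ring
  rw [h1, PowerSeries.coeff_mk]

theorem deriv_geo (b : ℂ) : d⁄dX ℂ ((1 - C b * X : ℂ⟦X⟧)⁻¹) =
    (1 - C b * X : ℂ⟦X⟧)⁻¹ * (C b * (1 - C b * X : ℂ⟦X⟧)⁻¹) := by
  rw [PowerSeries.derivative_inv']
  have h1 : d⁄dX ℂ (1 - C b * X : ℂ⟦X⟧) = - C b := by
    ext n
    rw [PowerSeries.coeff_derivative, map_sub, map_neg, PowerSeries.coeff_C_mul,
      PowerSeries.coeff_one, if_neg (Nat.succ_ne_zero n), PowerSeries.coeff_X, PowerSeries.coeff_C]
    rcases n with _ | n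
    · simp
    · simp
  rw [h1]
  ring

theorem deriv_prod {κ : Type} (s : Finset κ) (b : κ → ℂ) :
    d⁄dX ℂ (∏ r ∈ s, (1 - C (b r) * X : ℂ⟦X⟧)⁻¹) =
      (∏ r ∈ s, (1 - C (b r) * X : ℂ⟦X⟧)⁻¹) * ∑ r ∈ s, C (b r) * (1 - C (b r) * X : ℂ⟦X⟧)⁻¹ := by
  classical
  induction s using Finset.induction_on with
  | empty => simp
  | insert a s ha ih =>
    rw [Finset.prod_insert ha, Finset.sum_insert ha, Derivation.leibniz, ih, deriv_geo]
    simp only [smul_eq_mul]
    ring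

theorem prod_rec {κ : Type} (s : Finset κ) (b : κ → ℂ) (k : ℕ) :
    ((k : ℂ) + 1) * coeff (k + 1) (∏ r ∈ s, (1 - C (b r) * X : ℂ⟦X⟧)⁻¹) =
      ∑ x ∈ Finset.HasAntidiagonal.antidiagonal k, coeff x.1 (∏ r ∈ s, (1 - C (b r) * X : ℂ⟦X⟧)⁻¹) *
        ∑ r ∈ s, b r ^ (x.2 + 1) := by
  have h := congrArg (coeff k) (deriv_prod s b)
  rw [PowerSeries.coeff_derivative, PowerSeries.coeff_mul] at h
  rw [mul_comm, h]
  refine Finset.sum_congr rfl fun x _ => ?_
  congr 1
  rw [map_sum]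
  refine Finset.sum_congr rfl fun r _ => ?_
  rw [PowerSeries.coeff_C_mul, geo_coeff]
  ring

theorem rsLoc_zero {n : ℕ} (α : Fin n → ℂ) : rsLoc α 0 = 1 := by
  unfold rsLoc
  rw [PowerSeries.coeff_zero_eq_constantCoeff_apply, map_prod]
  simp_rw [map_prod, PowerSeries.constantCoeff_inv]
  simp

theorem sum_pow_eq {n : ℕ} (α : Fin n → ℂ) (k : ℕ) :
    ∑ r : Fin n × Fin n, (α r.1 * (starRingEnd ℂ) (α r.2)) ^ k = ((‖pw α k‖ ^ 2 : ℝ) : ℂ) := by
  have h1 : ((‖pw α k‖ ^ 2 : ℝ) : ℂ) = pw α k * (starRingEnd ℂ) (pw α k) := by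
    rw [Complex.mul_conj, Complex.normSq_eq_norm_sq]
  rw [h1]
  unfold pw
  rw [map_sum, Finset.sum_mul_sum, ← Finset.univ_product_univ, Finset.sum_product]
  refine Finset.sum_congr rfl fun i _ => Finset.sum_congr rfl fun j _ => ?_
  rw [mul_pow, map_pow]

theorem rsLoc_rec {n : ℕ} (α : Fin n → ℂ) (k : ℕ) :
    ((k : ℂ) + 1) * rsLoc α (k + 1) = ∑ x ∈ Finset.HasAntidiagonal.antidiagonal k, rsLoc α x.1 *
      ((‖pw α (x.2 + 1)‖ ^ 2 : ℝ) : ℂ) := by
  have h1 : (∏ i, ∏ j, (1 - C (α i * (starRingEnd ℂ) (α j)) * X : ℂ⟦X⟧)⁻¹) =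
      ∏ r ∈ (Finset.univ : Finset (Fin n × Fin n)),
        (1 - C (α r.1 * (starRingEnd ℂ) (α r.2)) * X : ℂ⟦X⟧)⁻¹ := by
    rw [← Finset.univ_product_univ, Finset.prod_product]
  unfold rsLoc
  rw [h1, prod_rec]
  refine Finset.sum_congr rfl fun x _ => ?_
  rw [sum_pow_eq]

/-- The local coefficients are nonnegative and at least `|p_k|² / k`. -/
theorem rsLoc_nonneg {n : ℕ} (α : Fin n → ℂ) (k : ℕ) :
    rsLoc α k = ((rsLoc α k).re : ℂ) ∧ 0 ≤ (rsLoc α k).re ∧
      ‖pw α (k + 1)‖ ^ 2 ≤ (k + 1) * (rsLoc α (k + 1)).re := by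
  have key : ∀ k, rsLoc α k = ((rsLoc α k).re : ℂ) ∧ 0 ≤ (rsLoc α k).re := by
    intro k
    induction k using Nat.strong_induction_on with
    | _ k ih =>
      rcases k with _ | k
      · rw [rsLoc_zero]
        simp
      · have h := rsLoc_rec α k
        have hk : ((k : ℂ) + 1) ≠ 0 := by exact_mod_cast Nat.succ_ne_zero k
        have h2 : ∑ x ∈ Finset.HasAntidiagonal.antidiagonal k, rsLoc α x.1 * ((‖pw α (x.2 + 1)‖ ^ 2 : ℝ) : ℂ) =
            ((∑ x ∈ Finset.HasAntidiagonal.antidiagonal k, (rsLoc α x.1).re * ‖pw α (x.2 + 1)‖ ^ 2 : ℝ) : ℂ) := by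
          rw [Complex.ofReal_sum]
          refine Finset.sum_congr rfl fun x hx => ?_
          have hx' : x.1 < k + 1 := by
            have := Finset.HasAntidiagonal.mem_antidiagonal.1 hx
            omega
          rw [Complex.ofReal_mul, ← (ih x.1 hx').1]
        have h3 : 0 ≤ ∑ x ∈ Finset.HasAntidiagonal.antidiagonal k, (rsLoc α x.1).re * ‖pw α (x.2 + 1)‖ ^ 2 := by
          refine Finset.sum_nonneg fun x hx => ?_
          have hx' : x.1 < k + 1 := by
            have := Finset.HasAntidiagonal.mem_antidiagonal.1 hx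
            omega
          exact mul_nonneg (ih x.1 hx').2 (sq_nonneg _)
        rw [h2] at h
        have h4 : rsLoc α (k + 1) = (((∑ x ∈ Finset.HasAntidiagonal.antidiagonal k, (rsLoc α x.1).re *
            ‖pw α (x.2 + 1)‖ ^ 2) / (k + 1) : ℝ) : ℂ) := by
          push_cast
          rw [eq_div_iff hk, mul_comm]
          exact_mod_cast h
        rw [h4]
        refine ⟨by rw [Complex.ofReal_re], ?_⟩
        rw [Complex.ofReal_re]
        positivity
  refine ⟨(key k).1, (key k).2, ?_⟩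
  have h := congrArg Complex.re (rsLoc_rec α k)
  have h1 : (((k : ℂ) + 1) * rsLoc α (k + 1)).re = (k + 1) * (rsLoc α (k + 1)).re := by
    have : ((k : ℂ) + 1) = ((k + 1 : ℝ) : ℂ) := by push_cast; rfl
    rw [this, Complex.re_ofReal_mul]
  rw [h1, Complex.re_sum] at h
  rw [h]
  have h2 : ∀ x ∈ Finset.HasAntidiagonal.antidiagonal k, 0 ≤ (rsLoc α x.1 * ((‖pw α (x.2 + 1)‖ ^ 2 : ℝ) : ℂ)).re := by
    intro x _
    rw [Complex.re_mul_ofReal]
    exact mul_nonneg (key x.1).2 (sq_nonneg _)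
  refine le_trans ?_ (Finset.single_le_sum h2 (a := (0, k)) (by simp))
  rw [rsLoc_zero, one_mul, Complex.ofReal_re]

/-! ### Power sums of numbers of modulus at most one -/

open MvPolynomial in
/-- if the power sums `s_1, …, s_a` of `a` numbers are at most `η ≤ 1` in modulus, so are the elementary
symmetric functions `e_1, …, e_a` -/
theorem esymm_le {κ : Type} [Fintype κ] [DecidableEq κ] (b : κ → ℂ) {η : ℝ} (hη0 : 0 ≤ η) (hη : η ≤ 1) {a : ℕ}
    (h : ∀ j, 1 ≤ j → j ≤ a → ‖∑ r, b r ^ j‖ ≤ η) (k : ℕ) (hk1 : 1 ≤ k) (hka : k ≤ a) :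
    ‖aeval b (esymm κ ℂ k)‖ ≤ η := by
  induction k using Nat.strong_induction_on with
  | _ k ih =>
    have h1 := congrArg (aeval b) (MvPolynomial.mul_esymm_eq_sum κ ℂ k)
    rw [map_mul, map_natCast, map_mul, map_pow, map_neg, map_one, map_sum] at h1
    have hk0 : (0 : ℝ) < k := by exact_mod_cast hk1
    have h2 : (k : ℝ) * ‖aeval b (esymm κ ℂ k)‖ ≤ ∑ x ∈ Finset.HasAntidiagonal.antidiagonal k with x.1 < k, η := by
      have h3 : (k : ℝ) * ‖aeval b (esymm κ ℂ k)‖ = ‖(k : ℂ) * aeval b (esymm κ ℂ k)‖ := by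
        rw [norm_mul, Complex.norm_natCast]
      rw [h3, h1, norm_mul, norm_pow, norm_neg, norm_one, one_pow, one_mul]
      refine (norm_sum_le _ _).trans (Finset.sum_le_sum fun x hx => ?_)
      rw [Finset.mem_filter, Finset.HasAntidiagonal.mem_antidiagonal] at hx
      rw [map_mul, map_mul, map_pow, map_neg, map_one, norm_mul, norm_mul, norm_pow, norm_neg,
        norm_one, one_pow, one_mul]
      have hp : ‖aeval b (psum κ ℂ x.2)‖ ≤ η := by
        rw [MvPolynomial.psum, map_sum]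
        simp only [map_pow, aeval_X]
        exact h x.2 (by omega) (by omega)
      have he : ‖aeval b (esymm κ ℂ x.1)‖ ≤ 1 := by
        rcases Nat.eq_zero_or_pos x.1 with h0 | h0
        · rw [h0, esymm_zero, map_one, norm_one]
        · exact (ih x.1 hx.2 h0 (by omega)).trans hη
      calc ‖aeval b (esymm κ ℂ x.1)‖ * ‖aeval b (psum κ ℂ x.2)‖ ≤ 1 * η :=
            mul_le_mul he hp (norm_nonneg _) zero_le_one
        _ = η := one_mul _
    have hcard : (Finset.filter (fun x : ℕ × ℕ => x.1 < k) (Finset.HasAntidiagonal.antidiagonal k)).card = k := by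
      have h4 : Finset.filter (fun x : ℕ × ℕ => x.1 < k) (Finset.HasAntidiagonal.antidiagonal k) =
          (Finset.range k).image fun i => (i, k - i) := by
        ext ⟨x, y⟩
        simp only [Finset.mem_filter, Finset.HasAntidiagonal.mem_antidiagonal, Finset.mem_image, Finset.mem_range,
          Prod.mk.injEq]
        constructor
        · rintro ⟨h5, h6⟩
          exact ⟨x, h6, rfl, by omega⟩
        · rintro ⟨i, hi, rfl, rfl⟩
          omega
      rw [h4, Finset.card_image_of_injective _ (fun i j hij => (Prod.mk.inj hij).1),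
        Finset.card_range]
    rw [Finset.sum_const, hcard, nsmul_eq_mul] at h2
    exact le_of_mul_le_mul_left h2 hk0

open MvPolynomial in
/-- Among numbers of which one has modulus `1`, one of the first power sums has modulus at least
`1 / (number)`. -/
theorem exists_psum_ge {κ : Type} [Fintype κ] [DecidableEq κ] (b : κ → ℂ) (hb : ∃ r, ‖b r‖ = 1) :
    ∃ j, 1 ≤ j ∧ j ≤ Fintype.card κ ∧ 1 / (Fintype.card κ : ℝ) ≤ ‖∑ r, b r ^ j‖ := by
  classical
  by_contra hcon
  push Not at hcon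
  obtain ⟨r₀, hr₀⟩ := hb
  set a := Fintype.card κ with ha
  have ha1 : 1 ≤ a := Fintype.card_pos_iff.2 ⟨r₀⟩
  have ha0 : (0 : ℝ) < a := by exact_mod_cast ha1
  -- a common bound below `1/a`
  have hne : (Finset.Icc 1 a).Nonempty := ⟨1, Finset.mem_Icc.2 ⟨le_rfl, ha1⟩⟩
  set η : ℝ := (Finset.Icc 1 a).sup' hne
    (fun j => ‖∑ r, b r ^ j‖) with hηdef
  have hη1 : ∀ j, 1 ≤ j → j ≤ a → ‖∑ r, b r ^ j‖ ≤ η := fun j h1 h2 =>
    Finset.le_sup' (fun j => ‖∑ r, b r ^ j‖) (Finset.mem_Icc.2 ⟨h1, h2⟩)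
  have hη2 : η < 1 / a := by
    rw [hηdef, Finset.sup'_lt_iff]
    intro j hj
    exact hcon j (Finset.mem_Icc.1 hj).1 (Finset.mem_Icc.1 hj).2
  have hη0 : 0 ≤ η := (norm_nonneg _).trans (hη1 1 le_rfl ha1)
  have hη3 : η ≤ 1 := by
    refine hη2.le.trans ?_
    rw [div_le_one ha0]
    exact_mod_cast ha1
  have he := fun k h1 h2 => esymm_le b hη0 hη3 hη1 k h1 h2
  -- Vieta
  have hv : ∑ k ∈ Finset.range (a + 1), (-1 : ℂ) ^ k * aeval b (esymm κ ℂ k) * (b r₀) ^ (a - k) = 0 := by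
    have h1 := congrArg (Polynomial.eval (b r₀))
      (Multiset.prod_X_sub_X_eq_sum_esymm (Finset.univ.val.map b))
    rw [Polynomial.eval_multiset_prod, Polynomial.eval_finsetSum] at h1
    have h2 : (Multiset.map (Polynomial.eval (b r₀)) (Multiset.map (fun t => Polynomial.X -
        Polynomial.C t) (Multiset.map b Finset.univ.val))).prod = 0 := by
      rw [Multiset.prod_eq_zero_iff, Multiset.mem_map]
      refine ⟨Polynomial.X - Polynomial.C (b r₀), ?_, by simp⟩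
      rw [Multiset.mem_map]
      exact ⟨b r₀, Multiset.mem_map.2 ⟨r₀, Finset.mem_univ _, rfl⟩, rfl⟩
    rw [h2, Multiset.card_map] at h1
    have hc : (Finset.univ : Finset κ).val.card = a := rfl
    rw [hc] at h1
    rw [h1]
    refine Finset.sum_congr rfl fun k _ => ?_
    rw [Polynomial.eval_mul, Polynomial.eval_mul, Polynomial.eval_pow, Polynomial.eval_neg,
      Polynomial.eval_one, Polynomial.eval_C, Polynomial.eval_pow, Polynomial.eval_X,
      MvPolynomial.aeval_esymm_eq_multiset_esymm]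
    ring
  rw [Finset.sum_range_succ' , esymm_zero, map_one, pow_zero, one_mul, one_mul, Nat.sub_zero] at hv
  have h5 : ‖b r₀ ^ a‖ ≤ ∑ k ∈ Finset.range a, η := by
    have h6 : b r₀ ^ a = -∑ k ∈ Finset.range a, (-1 : ℂ) ^ (k + 1) *
        aeval b (esymm κ ℂ (k + 1)) * b r₀ ^ (a - (k + 1)) := by linear_combination hv
    rw [h6, norm_neg]
    refine (norm_sum_le _ _).trans (Finset.sum_le_sum fun k hk => ?_)
    rw [norm_mul, norm_mul, norm_pow, norm_neg, norm_one, one_pow, one_mul, norm_pow, hr₀, one_pow,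
      mul_one]
    exact he (k + 1) (by omega) (Finset.mem_range.1 hk)
  rw [norm_pow, hr₀, one_pow, Finset.sum_const, Finset.card_range, nsmul_eq_mul] at h5
  rw [lt_div_iff₀ ha0] at hη2
  linarith

end Pool.Agent.W189.RS
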