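import Mathlib
import Pool.Agent.W189.RS.Loc

/-! Large Satake parameters give a large power sum; counting lemmas. -/

set_option autoImplicit false

namespace Pool.Agent.W189.RS

/-- the multiset of the `α_i` is stable under `z ↦ 1 / conj z` -/
def Unitary {n : ℕ} (α : Fin n → ℂ) : Prop :=
  (∀ i, α i ≠ 0) ∧ Multiset.map (fun i => ((starRingEnd ℂ) (α i))⁻¹) Finset.univ.val =
    Multiset.map α Finset.univ.val

theorem card_big_le {n : ℕ} {α : Fin n → ℂ} (hU : Unitary α) :
    2 * (Finset.univ.filter fun i => 1 < ‖α i‖).card ≤ n := by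
  have h1 := congrArg (Multiset.countP fun z : ℂ => 1 < ‖z‖) hU.2
  rw [Multiset.countP_map, Multiset.countP_map] at h1
  have h2 : (Multiset.filter (fun i => 1 < ‖((starRingEnd ℂ) (α i))⁻¹‖)
      (Finset.univ : Finset (Fin n)).val).card = (Finset.univ.filter fun i => ‖α i‖ < 1).card := by
    have : (Finset.univ.filter fun i => ‖α i‖ < 1) =
        Finset.univ.filter fun i => 1 < ‖((starRingEnd ℂ) (α i))⁻¹‖ := by
      ext i
      simp only [Finset.mem_filter, Finset.mem_univ, true_and]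
      have h3 : 0 < ‖α i‖ := norm_pos_iff.2 (hU.1 i)
      rw [norm_inv, RCLike.norm_conj, one_lt_inv₀ h3]
    rw [this]
    rfl
  have h3 : (Multiset.filter (fun i => 1 < ‖α i‖) (Finset.univ : Finset (Fin n)).val).card =
      (Finset.univ.filter fun i => 1 < ‖α i‖).card := rfl
  rw [h2, h3] at h1
  have h4 : Disjoint (Finset.univ.filter fun i => ‖α i‖ < 1) (Finset.univ.filter fun i => 1 < ‖α i‖) := by
    rw [Finset.disjoint_filter]
    intro i _ h5 h6
    linarith
  have h5 := Finset.card_union_of_disjoint h4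
  have h6 := Finset.card_le_univ ((Finset.univ.filter fun i => ‖α i‖ < 1) ∪
    (Finset.univ.filter fun i => 1 < ‖α i‖))
  rw [Fintype.card_fin] at h6
  omega

theorem exists_pw_ge {n : ℕ} {α : Fin n → ℂ} (hU : Unitary α) {M : ℝ} (hM : ∃ i, ‖α i‖ = M)
    (hmax : ∀ i, ‖α i‖ ≤ M) (hbig : 2 * (n : ℝ) ^ 2 ≤ M) :
    ∃ k, 1 ≤ k ∧ k ≤ n / 2 ∧ M ^ k / (2 * n) ≤ ‖pw α k‖ := by
  classical
  obtain ⟨i₀, hi₀⟩ := hM
  have hn1 : 1 ≤ n := by
    rcases n with _ | n
    · exact i₀.elim0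
    · omega
  have hn : (1 : ℝ) ≤ n := by exact_mod_cast hn1
  have hM1 : 1 < M := by nlinarith
  have hM0 : 0 < M := by linarith
  let κ := {i : Fin n // 1 < ‖α i‖}
  have hcard : Fintype.card κ = (Finset.univ.filter fun i => 1 < ‖α i‖).card :=
    Fintype.card_subtype _
  have hcard2 := card_big_le hU
  obtain ⟨j, hj1, hj2, hj3⟩ := exists_psum_ge (fun r : κ => α r / M)
    ⟨⟨i₀, by rw [hi₀]; exact hM1⟩, by
      simp only [norm_div, Complex.norm_real, Real.norm_eq_abs, abs_of_pos hM0]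
      rw [hi₀, div_self hM0.ne']⟩
  refine ⟨j, hj1, by omega, ?_⟩
  have hκ0 : 0 < Fintype.card κ := by omega
  have hκn : (Fintype.card κ : ℝ) ≤ n := by
    have : Fintype.card κ ≤ n := by omega
    exact_mod_cast this
  have hκ0' : (0 : ℝ) < Fintype.card κ := by exact_mod_cast hκ0
  -- the large ones
  have h1 : M ^ j / n ≤ ‖∑ r : κ, α r ^ j‖ := by
    have h2 : ∑ r : κ, (α r / M) ^ j = (∑ r : κ, α r ^ j) / (M : ℂ) ^ j := by
      rw [Finset.sum_div]
      refine Finset.sum_congr rfl fun r _ => ?_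
      rw [div_pow]
    rw [h2, norm_div, norm_pow, Complex.norm_real, Real.norm_eq_abs, abs_of_pos hM0] at hj3
    rw [le_div_iff₀ (by positivity)] at hj3
    refine le_trans ?_ hj3
    rw [div_mul_eq_mul_div, one_mul]
    exact div_le_div_of_nonneg_left (by positivity) hκ0' hκn
  have h3 : pw α j = ∑ r : κ, α r ^ j + ∑ i ∈ Finset.univ.filter (fun i => ¬ 1 < ‖α i‖), α i ^ j := by
    unfold pw
    rw [← Finset.sum_filter_add_sum_filter_not Finset.univ (fun i => 1 < ‖α i‖)]
    congr 1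
    rw [← Finset.sum_subtype (Finset.univ.filter fun i => 1 < ‖α i‖) (fun i => by simp)
      (fun i => α i ^ j)]
  have h4 : ‖∑ i ∈ Finset.univ.filter (fun i => ¬ 1 < ‖α i‖), α i ^ j‖ ≤ n := by
    refine (norm_sum_le _ _).trans ?_
    calc ∑ i ∈ Finset.univ.filter (fun i => ¬ 1 < ‖α i‖), ‖α i ^ j‖
        ≤ ∑ _i ∈ Finset.univ.filter (fun i => ¬ 1 < ‖α i‖), (1 : ℝ) := by
          refine Finset.sum_le_sum fun i hi => ?_
          rw [norm_pow]
          exact pow_le_one₀ (norm_nonneg _) (not_lt.1 (Finset.mem_filter.1 hi).2)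
      _ ≤ n := by
          rw [Finset.sum_const, nsmul_eq_mul, mul_one]
          have := Finset.card_le_univ (Finset.univ.filter fun i => ¬ 1 < ‖α i‖)
          rw [Fintype.card_fin] at this
          exact_mod_cast this
  have h5 : ‖∑ r : κ, α r ^ j‖ - n ≤ ‖pw α j‖ := by
    rw [h3]
    have := norm_sub_norm_le (∑ r : κ, α r ^ j)
      (-∑ i ∈ Finset.univ.filter (fun i => ¬ 1 < ‖α i‖), α i ^ j)
    rw [norm_neg, sub_neg_eq_add] at this
    linarith
  have h6 : M ≤ M ^ j := le_self_pow₀ hM1.le (by omega)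
  have h7 : M ^ j / (2 * n) + M ^ j / (2 * n) = M ^ j / n := by
    field_simp
    ring
  have h8 : (n : ℝ) ≤ M ^ j / (2 * n) := by
    rw [le_div_iff₀ (by positivity)]
    nlinarith
  linarith

theorem summable_of_growth {P : Type} {a : P → ℝ} {N : P → ℕ} (ha : ∀ v, 0 ≤ a v)
    (hN : ∀ v, 1 ≤ N v) {C β : ℝ} (hβ : 0 ≤ β)
    (h : ∀ x : ℝ, 1 ≤ x → ∀ T : Finset P, (∀ v ∈ T, (N v : ℝ) ≤ x) → ∑ v ∈ T, a v ≤ C * x ^ β)
    {ε : ℝ} (hε : 0 < ε) : Summable fun v => a v * (N v : ℝ) ^ (-(β + ε)) := by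
  classical
  have hC : 0 ≤ C := by
    have := h 1 le_rfl ∅ (by simp)
    simpa using this
  set r : ℝ := (2 : ℝ) ^ (-ε) with hr
  have hr0 : 0 < r := by positivity
  have hr1 : r < 1 := Real.rpow_lt_one_of_one_lt_of_neg one_lt_two (by linarith)
  have hgeo := summable_geometric_of_lt_one hr0.le hr1
  refine summable_of_sum_le (c := C * 2 ^ β * ∑' j : ℕ, r ^ j)
    (fun v => mul_nonneg (ha v) (by positivity)) fun T => ?_
  have h1 : ∑ v ∈ T, a v * (N v : ℝ) ^ (-(β + ε)) =
      ∑ j ∈ T.image (fun v => Nat.log 2 (N v)), ∑ v ∈ T.filter (fun v => Nat.log 2 (N v) = j),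
        a v * (N v : ℝ) ^ (-(β + ε)) :=
    (Finset.sum_fiberwise_of_maps_to (fun v hv => Finset.mem_image_of_mem _ hv) _).symm
  rw [h1]
  have h2 : ∀ j ∈ T.image (fun v => Nat.log 2 (N v)),
      ∑ v ∈ T.filter (fun v => Nat.log 2 (N v) = j), a v * (N v : ℝ) ^ (-(β + ε)) ≤
        C * 2 ^ β * r ^ j := by
    intro j _
    have h2j : (1 : ℝ) ≤ 2 ^ (j + 1) := one_le_pow₀ (by norm_num)
    have h3 := h (2 ^ (j + 1)) h2j (T.filter fun v => Nat.log 2 (N v) = j) (by
      intro v hv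
      have h4 : N v < 2 ^ (Nat.log 2 (N v) + 1) := Nat.lt_pow_succ_log_self one_lt_two _
      rw [(Finset.mem_filter.1 hv).2] at h4
      exact_mod_cast h4.le)
    calc ∑ v ∈ T.filter (fun v => Nat.log 2 (N v) = j), a v * (N v : ℝ) ^ (-(β + ε))
        ≤ ∑ v ∈ T.filter (fun v => Nat.log 2 (N v) = j), a v * ((2 : ℝ) ^ j) ^ (-(β + ε)) := by
          refine Finset.sum_le_sum fun v hv => mul_le_mul_of_nonneg_left ?_ (ha v)
          have h4 : 2 ^ (Nat.log 2 (N v)) ≤ N v := Nat.pow_log_le_self 2 (by have := hN v; omega)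
          rw [(Finset.mem_filter.1 hv).2] at h4
          apply Real.rpow_le_rpow_of_nonpos (by positivity)
          · exact_mod_cast h4
          · linarith
      _ = (∑ v ∈ T.filter (fun v => Nat.log 2 (N v) = j), a v) * ((2 : ℝ) ^ j) ^ (-(β + ε)) := by
          rw [Finset.sum_mul]
      _ ≤ C * (2 ^ (j + 1)) ^ β * ((2 : ℝ) ^ j) ^ (-(β + ε)) :=
          mul_le_mul_of_nonneg_right h3 (by positivity)
      _ = C * 2 ^ β * r ^ j := by
          rw [hr, ← Real.rpow_natCast 2 (j + 1), ← Real.rpow_natCast 2 j,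
            ← Real.rpow_natCast _ j, ← Real.rpow_mul zero_le_two, ← Real.rpow_mul zero_le_two,
            ← Real.rpow_mul zero_le_two, mul_assoc, mul_assoc, ← Real.rpow_add zero_lt_two,
            ← Real.rpow_add zero_lt_two]
          congr 2
          push_cast
          ring
  refine (Finset.sum_le_sum h2).trans ?_
  rw [← Finset.mul_sum]
  exact mul_le_mul_of_nonneg_left (hgeo.sum_le_tsum _ fun j _ => by positivity) (by positivity)

theorem ncard_le_of_finset {P : Type} {S : Set P} {B : ℝ} (hB : 0 ≤ B)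
    (h : ∀ T : Finset P, (↑T : Set P) ⊆ S → (T.card : ℝ) ≤ B) : (S.ncard : ℝ) ≤ B := by
  by_cases hS : S.Finite
  · have := h hS.toFinset (by simp)
    rwa [Set.ncard_eq_toFinset_card S hS]
  · rw [Set.Infinite.ncard hS]
    simpa using hB

end Pool.Agent.W189.RS
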