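import Mathlib
import Pool.Agent.H402R2.T4bA

/-! Moving vertical lines of integration; smoothed Dirichlet series. -/

set_option autoImplicit false

namespace Pool.Agent.W189.RS

open Complex MeasureTheory Filter Topology Set

theorem exp_abs_integrable {δ : ℝ} (hδ : 0 < δ) : Integrable fun y : ℝ => Real.exp (-(δ * |y|)) :=
  Pool.Agent.H402R2.T4b.int_exp_abs hδ

theorem line_integrable {G : ℂ → ℂ} {a b K δ : ℝ} (hδ : 0 < δ)
    (hd : ∀ z : ℂ, a ≤ z.re → z.re ≤ b → DifferentiableAt ℂ G z)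
    (hb : ∀ z : ℂ, a ≤ z.re → z.re ≤ b → ‖G z‖ ≤ K * Real.exp (-(δ * |z.im|))) {c : ℝ}
    (hc : a ≤ c) (hc' : c ≤ b) : Integrable fun y : ℝ => G (c + y * I) := by
  refine Integrable.mono' ((exp_abs_integrable hδ).const_mul K) ?_ ?_
  · apply Continuous.aestronglyMeasurable
    rw [continuous_iff_continuousAt]
    intro y
    have h1 : ContinuousAt G ((c : ℂ) + y * I) := (hd _ (by simpa using hc) (by simpa using hc')).continuousAt
    exact ContinuousAt.comp (f := fun y : ℝ => (c : ℂ) + y * I) h1 (by fun_prop)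
  · refine Eventually.of_forall fun y => ?_
    have := hb ((c : ℂ) + y * I) (by simpa using hc) (by simpa using hc')
    simpa using this

theorem shift {G : ℂ → ℂ} {a b K δ : ℝ} (hab : a ≤ b) (hδ : 0 < δ)
    (hd : ∀ z : ℂ, a ≤ z.re → z.re ≤ b → DifferentiableAt ℂ G z)
    (hb : ∀ z : ℂ, a ≤ z.re → z.re ≤ b → ‖G z‖ ≤ K * Real.exp (-(δ * |z.im|))) :
    ∫ y : ℝ, G (a + y * I) = ∫ y : ℝ, G (b + y * I) := by
  have i1 := line_integrable hδ hd hb (c := a) le_rfl hab
  have i2 := line_integrable hδ hd hb (c := b) hab le_rfl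
  have t1 := intervalIntegral_tendsto_integral i1 tendsto_neg_atTop_atBot tendsto_id
  have t2 := intervalIntegral_tendsto_integral i2 tendsto_neg_atTop_atBot tendsto_id
  have hz : ∀ s : ℝ, (s = 1 ∨ s = -1) → Tendsto (fun R : ℝ => ∫ x in a..b, G (x + ((s * R : ℝ) : ℂ) * I))
      atTop (𝓝 0) := by
    intro s hs
    have hb' : ∀ᶠ R : ℝ in atTop, ‖∫ x in a..b, G (x + ((s * R : ℝ) : ℂ) * I)‖ ≤
        K * Real.exp (-(δ * R)) * |b - a| := by
      filter_upwards [eventually_ge_atTop 0] with R hR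
      apply intervalIntegral.norm_integral_le_of_norm_le_const
      intro x hx
      rw [uIoc_of_le hab] at hx
      have := hb ((x : ℂ) + ((s * R : ℝ) : ℂ) * I) (by simpa using hx.1.le) (by simpa using hx.2)
      have h2 : |((x : ℂ) + ((s * R : ℝ) : ℂ) * I).im| = R := by
        have h3 : ((x : ℂ) + ((s * R : ℝ) : ℂ) * I).im = s * R := by simp
        rw [h3, abs_mul, abs_of_nonneg hR]
        rcases hs with rfl | rfl <;> simp
      rw [h2] at this
      exact this
    refine squeeze_zero_norm' hb' ?_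
    have h0 : Tendsto (fun R : ℝ => Real.exp (-(δ * R))) atTop (𝓝 0) := by
      apply Real.tendsto_exp_neg_atTop_nhds_zero.comp
      exact tendsto_id.const_mul_atTop hδ
    have := (h0.const_mul K).mul_const |b - a|
    simpa using this
  have hrect : ∀ R : ℝ, 0 ≤ R →
      (∫ y in (-R)..R, G (a + y * I)) - (∫ y in (-R)..R, G (b + y * I)) =
      I * ((∫ x in a..b, G (x + ((1 * R : ℝ) : ℂ) * I)) -
        (∫ x in a..b, G (x + ((-1 * R : ℝ) : ℂ) * I))) := by
    intro R hR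
    have h := Complex.integral_boundary_rect_eq_zero_of_differentiableOn G ⟨a, -R⟩ ⟨b, R⟩ ?_
    · simp only [smul_eq_mul] at h
      rw [one_mul, show (-1 * R : ℝ) = -R by ring]
      have hI : I * I = -1 := Complex.I_mul_I
      linear_combination I * h + ((∫ y in (-R)..R, G (a + y * I)) -
        (∫ y in (-R)..R, G (b + y * I))) * hI
    · intro s hs
      simp only at hs
      rw [Complex.mem_reProdIm] at hs
      obtain ⟨h1, h2⟩ := hs
      rw [uIcc_of_le hab] at h1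
      exact (hd s h1.1 h1.2).differentiableWithinAt
  have hlim : (∫ y : ℝ, G (a + y * I)) - ∫ y : ℝ, G (b + y * I) = I * (0 - 0) := by
    refine tendsto_nhds_unique (t1.sub t2) ?_
    have := ((hz 1 (Or.inl rfl)).sub (hz (-1) (Or.inr rfl))).const_mul I
    refine this.congr' ?_
    filter_upwards [eventually_ge_atTop 0] with R hR
    exact (hrect R hR).symm
  rw [sub_zero, mul_zero] at hlim
  exact sub_eq_zero.1 hlim

/-- Decay of the Gamma function in a vertical strip. -/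
theorem Gamma_strip {c : ℝ} (hc : 0 < c) : ∃ K : ℝ, 0 < K ∧ ∀ z : ℂ, c ≤ z.re → z.re ≤ 2 →
    ‖Complex.Gamma z‖ ≤ K * Real.exp (-|z.im|) := by
  by_cases hc2 : c ≤ 2
  swap
  · exact ⟨1, one_pos, fun z h1 h2 => absurd (h1.trans h2) hc2⟩
  have hcont : ContinuousOn Real.Gamma (Set.Icc c 2) := by
    intro x hx
    apply (Real.differentiableAt_Gamma _).continuousAt.continuousWithinAt
    intro m hm
    have : (0 : ℝ) ≤ m := Nat.cast_nonneg m
    have := hx.1
    linarith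
  obtain ⟨K₀, hK₀⟩ := (isCompact_Icc (a := c) (b := 2)).bddAbove_image hcont
  have hcos : 0 < Real.cos 1 := Real.cos_one_pos
  have hcos1 : Real.cos 1 ≤ 1 := Real.cos_le_one 1
  have hK0pos : 0 < K₀ := by
    have := hK₀ (Set.mem_image_of_mem _ (show (2 : ℝ) ∈ Set.Icc c 2 from ⟨hc2, le_rfl⟩))
    have h2 := Real.Gamma_pos_of_pos (show (0 : ℝ) < 2 by norm_num)
    linarith
  refine ⟨K₀ / Real.cos 1 ^ 2, by positivity, fun z h1 h2 => ?_⟩
  have hz : 0 < z.re := lt_of_lt_of_le hc h1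
  have h := Pool.Agent.Helper242.KK.norm_Gamma_le_of_angle (σ := z.re) (v := z.im) (θ := 1) hz
    zero_le_one (by linarith [Real.pi_gt_three])
  rw [Complex.re_add_im] at h
  refine h.trans ?_
  have h3 : Real.Gamma z.re ≤ K₀ := hK₀ (Set.mem_image_of_mem _ ⟨h1, h2⟩)
  have h4 : Real.cos 1 ^ 2 ≤ Real.cos 1 ^ z.re := by
    rw [← Real.rpow_natCast]
    exact Real.rpow_le_rpow_of_exponent_ge hcos hcos1 (by exact_mod_cast h2)
  have h5 : (0 : ℝ) < Real.cos 1 ^ z.re := Real.rpow_pos_of_pos hcos _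
  have h6 : 0 ≤ Real.Gamma z.re := (Real.Gamma_pos_of_pos hz).le
  calc Real.exp (-1 * |z.im|) * Real.Gamma z.re / Real.cos 1 ^ z.re
      ≤ Real.exp (-1 * |z.im|) * K₀ / Real.cos 1 ^ 2 := by gcongr
    _ = K₀ / Real.cos 1 ^ 2 * Real.exp (-|z.im|) := by rw [neg_one_mul]; ring

/-- `exp (- n / X)` as an inverse Mellin transform on the line `Re s = 2` -/
theorem exp_eq {n X : ℝ} (hn : 0 < n) (hX : 0 < X) :
    (Real.exp (-(n / X)) : ℂ) = (2 * Real.pi : ℂ)⁻¹ *
      ∫ y : ℝ, (X : ℂ) ^ ((2 : ℝ) + y * I : ℂ) * Complex.Gamma ((2 : ℝ) + y * I) *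
        (n : ℂ) ^ (-((2 : ℝ) + y * I : ℂ)) := by
  have h := Pool.Agent.H402R2.T4b.cahen (ω := ((n / X : ℝ) : ℂ)) (by
    rw [Complex.ofReal_re]; positivity) (c := 2) (by norm_num)
  have e : ∀ y : ℝ, (1 / ((n / X : ℝ) : ℂ)) ^ (((2 : ℝ) : ℂ) + y * I) *
      Complex.Gamma (((2 : ℝ) : ℂ) + y * I) = (X : ℂ) ^ (((2 : ℝ) : ℂ) + y * I) *
      Complex.Gamma (((2 : ℝ) : ℂ) + y * I) * (n : ℂ) ^ (-(((2 : ℝ) : ℂ) + y * I)) := by
    intro y
    have h1 : (1 / ((n / X : ℝ) : ℂ)) = ((X : ℝ) : ℂ) * ((n⁻¹ : ℝ) : ℂ) := by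
      push_cast
      field_simp
    rw [h1, Complex.mul_cpow_ofReal_nonneg hX.le (by positivity), Complex.ofReal_inv,
      Complex.inv_cpow _ _ (by rw [Complex.arg_ofReal_of_nonneg hn.le]; exact Real.pi_pos.ne),
      Complex.cpow_neg]
    ring
  rw [MeasureTheory.integral_congr_ae (Eventually.of_forall e)] at h
  rw [h]
  have hpi : (Real.pi : ℂ) ≠ 0 := by exact_mod_cast Real.pi_ne_zero
  field_simp
  push_cast
  ring_nf

end Pool.Agent.W189.RS
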