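import Mathlib
import Pool.Agent.W189.RS.Shift

/-! Smoothed sums of a Dirichlet series with a continuation to the left. -/

set_option autoImplicit false

namespace Pool.Agent.W189.RS

open Complex MeasureTheory Filter Topology Set

theorem poly_le_exp {B : ℝ} (hB : 0 < B) {t : ℝ} (ht : 0 ≤ t) :
    (1 + t) ^ B ≤ (2 * B) ^ B * Real.exp (1 / 2) * Real.exp (t / 2) := by
  have h1 : (1 + t) = (2 * B) * ((1 + t) / (2 * B)) := by field_simp
  have h2 : (1 + t) / (2 * B) ≤ Real.exp ((1 + t) / (2 * B)) := by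
    have := Real.add_one_le_exp ((1 + t) / (2 * B))
    linarith
  have h3 : ((1 + t) / (2 * B)) ^ B ≤ Real.exp ((1 + t) / (2 * B)) ^ B :=
    Real.rpow_le_rpow (by positivity) h2 hB.le
  rw [h1, Real.mul_rpow (by positivity) (by positivity), mul_assoc]
  apply mul_le_mul_of_nonneg_left _ (by positivity)
  refine h3.trans (le_of_eq ?_)
  rw [← Real.exp_mul, ← Real.exp_add]
  congr 1
  field_simp

theorem Gamma_line_cont {c : ℝ} (hc : 0 < c) :
    Continuous (fun y : ℝ => Complex.Gamma ((c : ℂ) + y * I)) :=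
  Pool.Agent.H402R2.T4b.Gamma_line_cont hc

theorem natCast_cpow_norm {n : ℕ} (hn : n ≠ 0) (s : ℂ) : ‖(n : ℂ) ^ s‖ = (n : ℝ) ^ s.re := by
  rw [← Complex.ofReal_natCast, Complex.norm_cpow_eq_rpow_re_of_pos]
  exact_mod_cast Nat.pos_of_ne_zero hn

section

variable {ι : Type} [Countable ι] {lam : ι → ℝ} {N : ι → ℕ} {w : ι → ℂ} {f : ℂ → ℂ} {c A B X : ℝ}

theorem sum_eq_integral (h0 : ∀ i, 0 ≤ lam i) (hN : ∀ i, N i = 0 → lam i = 0)
    (hw : ∀ i, ‖w i‖ ≤ 1) (hs : Summable fun i => lam i * (N i : ℝ) ^ (-2 : ℝ)) (hX : 0 < X)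
    (hf : ∀ s : ℂ, s.re = 2 → f s = ∑' i, (lam i : ℂ) * w i * (N i : ℂ) ^ (-s)) :
    ∑' i, (lam i : ℂ) * w i * (Real.exp (-(N i / X)) : ℂ) = (2 * Real.pi : ℂ)⁻¹ *
      ∫ y : ℝ, (X : ℂ) ^ ((2 : ℝ) + y * I : ℂ) * Complex.Gamma ((2 : ℝ) + y * I) *
        f ((2 : ℝ) + y * I) := by
  set F : ι → ℝ → ℂ := fun i y => (lam i : ℂ) * w i * ((X : ℂ) ^ ((2 : ℝ) + y * I : ℂ) *
    Complex.Gamma ((2 : ℝ) + y * I) * (N i : ℂ) ^ (-((2 : ℝ) + y * I : ℂ))) with hF
  obtain ⟨K, hK, hG⟩ := Gamma_strip (c := 2) (by norm_num)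
  have hGi : Integrable fun y : ℝ => Real.exp (-|y|) := by
    simpa using exp_abs_integrable one_pos
  have hre : ∀ y : ℝ, (((2 : ℝ) : ℂ) + y * I).re = 2 := fun y => by simp
  have him : ∀ y : ℝ, (((2 : ℝ) : ℂ) + y * I).im = y := fun y => by simp
  have hXne : (X : ℂ) ≠ 0 := by exact_mod_cast hX.ne'
  have hFn : ∀ i y, ‖F i y‖ ≤ lam i * (N i : ℝ) ^ (-2 : ℝ) * (X ^ (2 : ℝ) * K * Real.exp (-|y|)) := by
    intro i y
    by_cases hi : N i = 0
    · simp [hF, hN i hi]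
    · rw [hF]
      simp only [norm_mul]
      rw [Complex.norm_real, Real.norm_eq_abs, abs_of_nonneg (h0 i),
        Complex.norm_cpow_eq_rpow_re_of_pos hX, natCast_cpow_norm hi, Complex.neg_re, hre]
      have h1 := hG _ (le_of_eq (hre y).symm) (le_of_eq (hre y))
      rw [him] at h1
      have h2 : 0 ≤ (N i : ℝ) ^ (-2 : ℝ) := by positivity
      have h3 : 0 ≤ X ^ (2 : ℝ) := by positivity
      calc lam i * ‖w i‖ * (X ^ (2 : ℝ) * ‖Complex.Gamma (((2 : ℝ) : ℂ) + y * I)‖ *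
            (N i : ℝ) ^ (-2 : ℝ))
          ≤ lam i * 1 * (X ^ (2 : ℝ) * (K * Real.exp (-|y|)) * (N i : ℝ) ^ (-2 : ℝ)) := by
            have h4 := h0 i
            have h5 := hw i
            gcongr
        _ = _ := by ring
  have hFc : ∀ i, Continuous (F i) := by
    intro i
    by_cases hi : N i = 0
    · have : F i = fun _ => 0 := by
        funext y
        simp [hF, hN i hi]
      rw [this]
      exact continuous_const
    · have hNne : (N i : ℂ) ≠ 0 := by exact_mod_cast hi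
      refine Continuous.mul continuous_const (Continuous.mul (Continuous.mul ?_
        (Gamma_line_cont (by norm_num))) ?_)
      · exact Continuous.const_cpow (by fun_prop) (Or.inl hXne)
      · exact Continuous.const_cpow (by fun_prop) (Or.inl hNne)
  have hFi : ∀ i, Integrable (F i) := by
    intro i
    refine Integrable.mono' ((hGi.const_mul (X ^ (2 : ℝ) * K)).const_mul
      (lam i * (N i : ℝ) ^ (-2 : ℝ))) (hFc i).aestronglyMeasurable
      (Eventually.of_forall fun y => ?_)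
    exact hFn i y
  have hsum : Summable fun i => ∫ y, ‖F i y‖ := by
    refine Summable.of_nonneg_of_le (fun i => integral_nonneg fun y => norm_nonneg _) (fun i => ?_)
      (hs.mul_right (∫ y : ℝ, X ^ (2 : ℝ) * K * Real.exp (-|y|)))
    rw [← integral_const_mul]
    exact integral_mono (hFi i).norm ((hGi.const_mul (X ^ (2 : ℝ) * K)).const_mul _) (hFn i)
  have h := hasSum_integral_of_summable_integral_norm hFi hsum
  have h2 : ∀ i, (lam i : ℂ) * w i * (Real.exp (-(N i / X)) : ℂ) =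
      (2 * Real.pi : ℂ)⁻¹ * ∫ y, F i y := by
    intro i
    by_cases hi : N i = 0
    · simp [hF, hN i hi]
    · have hpos : (0 : ℝ) < (N i : ℝ) := by exact_mod_cast Nat.pos_of_ne_zero hi
      rw [exp_eq hpos hX, hF]
      simp only []
      rw [integral_const_mul]
      push_cast
      ring
  rw [tsum_congr h2, tsum_mul_left, h.tsum_eq]
  congr 1
  refine integral_congr_ae (Eventually.of_forall fun y => ?_)
  simp only []
  rw [hf _ (hre y), ← tsum_mul_left]
  refine tsum_congr fun i => ?_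
  rw [hF]
  ring

theorem smooth_bound (hc : 0 < c) (hc2 : c ≤ 2) (hB : 0 < B) :
    ∃ K : ℝ, 0 < K ∧ ∀ {ι : Type} [Countable ι] {lam : ι → ℝ} {N : ι → ℕ} {w : ι → ℂ} {f : ℂ → ℂ}
      {A X : ℝ}, (∀ i, 0 ≤ lam i) → (∀ i, N i = 0 → lam i = 0) → (∀ i, ‖w i‖ ≤ 1) →
      (Summable fun i => lam i * (N i : ℝ) ^ (-2 : ℝ)) → 1 ≤ X → 0 ≤ A →
      (∀ s : ℂ, s.re = 2 → f s = ∑' i, (lam i : ℂ) * w i * (N i : ℂ) ^ (-s)) →
      (∀ s : ℂ, c ≤ s.re → s.re ≤ 2 → DifferentiableAt ℂ f s) →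
      (∀ s : ℂ, c ≤ s.re → s.re ≤ 2 → ‖f s‖ ≤ A * (1 + |s.im|) ^ B) →
      ‖∑' i, (lam i : ℂ) * w i * (Real.exp (-(N i / X)) : ℂ)‖ ≤ K * A * X ^ c := by
  obtain ⟨K₀, hK₀, hG⟩ := Gamma_strip hc
  set CB : ℝ := (2 * B) ^ B * Real.exp (1 / 2) with hCB
  have hCB0 : 0 < CB := by positivity
  set I0 : ℝ := ∫ y : ℝ, Real.exp (-(1 / 2 * |y|)) with hI0
  have hI0i : Integrable fun y : ℝ => Real.exp (-(1 / 2 * |y|)) := exp_abs_integrable (by norm_num)
  have hI0nn : 0 ≤ I0 := integral_nonneg fun y => (Real.exp_pos _).le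
  refine ⟨(2 * Real.pi)⁻¹ * (K₀ * CB) * (I0 + 1), by positivity, ?_⟩
  intro ι _ lam N w f A X h0 hN hw hs hX hA hf hd hb
  have hX0 : 0 < X := by linarith
  have hXne : (X : ℂ) ≠ 0 := by exact_mod_cast hX0.ne'
  set G : ℂ → ℂ := fun s => (X : ℂ) ^ s * Complex.Gamma s * f s with hGdef
  have hGn : ∀ z : ℂ, c ≤ z.re → z.re ≤ 2 →
      ‖G z‖ ≤ X ^ z.re * (K₀ * CB * A) * Real.exp (-(1 / 2 * |z.im|)) := by
    intro z h1 h2
    rw [hGdef]
    simp only [norm_mul]
    rw [Complex.norm_cpow_eq_rpow_re_of_pos hX0]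
    have h3 := hG z h1 h2
    have h4 := hb z h1 h2
    have h5 := poly_le_exp hB (abs_nonneg z.im)
    have h6 : 0 ≤ X ^ z.re := by positivity
    have h7 : 0 ≤ (1 + |z.im|) ^ B := by positivity
    calc X ^ z.re * ‖Complex.Gamma z‖ * ‖f z‖
        ≤ X ^ z.re * (K₀ * Real.exp (-|z.im|)) * (A * (CB * Real.exp (|z.im| / 2))) := by
          gcongr
          exact h4.trans (mul_le_mul_of_nonneg_left h5 hA)
      _ = X ^ z.re * (K₀ * CB * A) * (Real.exp (-|z.im|) * Real.exp (|z.im| / 2)) := by ring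
      _ = _ := by
        rw [← Real.exp_add]
        congr 2
        ring
  have hGd : ∀ z : ℂ, c ≤ z.re → z.re ≤ 2 → DifferentiableAt ℂ G z := by
    intro z h1 h2
    refine DifferentiableAt.mul (DifferentiableAt.mul ?_ ?_) (hd z h1 h2)
    · exact (differentiableAt_id.const_cpow (Or.inl hXne))
    · apply Complex.differentiableAt_Gamma
      intro m hm
      have := congrArg Complex.re hm
      simp at this
      have h3 : (0 : ℝ) ≤ m := Nat.cast_nonneg m
      linarith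
  have hsh := shift (G := G) (a := c) (b := 2) (K := X ^ (2 : ℝ) * (K₀ * CB * A)) (δ := 1 / 2) hc2
    (by norm_num) hGd (fun z h1 h2 => by
      refine (hGn z h1 h2).trans ?_
      gcongr)
  rw [sum_eq_integral h0 hN hw hs hX0 hf]
  have e1 : (∫ y : ℝ, (X : ℂ) ^ ((2 : ℝ) + y * I : ℂ) * Complex.Gamma ((2 : ℝ) + y * I) *
        f ((2 : ℝ) + y * I)) = ∫ y : ℝ, G ((2 : ℝ) + y * I) := rfl
  rw [e1, ← hsh, norm_mul, norm_inv, norm_mul, Complex.norm_real, Complex.norm_ofNat,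
    Real.norm_eq_abs, abs_of_pos Real.pi_pos]
  have hint : ‖∫ y : ℝ, G (c + y * I)‖ ≤ X ^ c * (K₀ * CB * A) * I0 := by
    refine (norm_integral_le_integral_norm _).trans ?_
    rw [hI0, ← integral_const_mul]
    refine integral_mono_of_nonneg (Eventually.of_forall fun y => norm_nonneg _)
      (hI0i.const_mul _) (Eventually.of_forall fun y => ?_)
    have := hGn ((c : ℂ) + y * I) (by simp) (by simpa using hc2)
    simpa using this
  calc (2 * Real.pi)⁻¹ * ‖∫ y : ℝ, G (c + y * I)‖ ≤ (2 * Real.pi)⁻¹ * (X ^ c * (K₀ * CB * A) * I0) :=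
        mul_le_mul_of_nonneg_left hint (by positivity)
    _ = (2 * Real.pi)⁻¹ * (K₀ * CB) * I0 * A * X ^ c := by ring
    _ ≤ (2 * Real.pi)⁻¹ * (K₀ * CB) * (I0 + 1) * A * X ^ c := by
      gcongr
      exact le_add_of_nonneg_right zero_le_one

end

end Pool.Agent.W189.RS
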