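import Mathlib
import Pool.Agent.W189.RS.Smooth
import Pool.Agent.H393R2.DC.Primes

/-! Mass of a non-negative Dirichlet series on `k`-th powers, by characters of order `k`. -/

set_option autoImplicit false

namespace Pool.Agent.W189.RS

open Complex Filter Topology

/-- The twists of `∑ lam_i N_i^{-s}` by products of two nontrivial characters to distinct prime moduli
(outside a finite set) have a continuation to `Re s > 0`, with the bound
`C_ε (q₁ q₂ (1 + |t|))^(d/2 + ε)` for `Re s ≥ ε`. -/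
def Conv {ι : Type} (lam : ι → ℝ) (N : ι → ℕ) (d : ℝ) (bad : Finset ℕ) : Prop :=
  ∀ ε : ℝ, 0 < ε → ∃ C : ℝ, ∀ (q₁ q₂ : ℕ) (χ₁ : DirichletCharacter ℂ q₁)
    (χ₂ : DirichletCharacter ℂ q₂), q₁.Prime → q₂.Prime → q₁ ≠ q₂ → q₁ ∉ bad → q₂ ∉ bad →
    χ₁ ≠ 1 → χ₂ ≠ 1 → ∃ f : ℂ → ℂ,
      (∀ s : ℂ, 1 < s.re → f s = ∑' i, (lam i : ℂ) * (χ₁ (N i : ZMod q₁) * χ₂ (N i : ZMod q₂)) *
        (N i : ℂ) ^ (-s)) ∧
      (∀ s : ℂ, 0 < s.re → DifferentiableAt ℂ f s) ∧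
      ∀ s : ℂ, ε ≤ s.re → ‖f s‖ ≤ C * (q₁ * q₂ * (1 + |s.im|)) ^ (d / 2 + ε)

theorem exists_char {q k : ℕ} (hq : q.Prime) (hk : 2 ≤ k) (h : q ≡ 1 [MOD k]) :
    ∃ χ : DirichletCharacter ℂ q, χ ≠ 1 ∧ χ ^ k = 1 := by
  haveI : Fact q.Prime := ⟨hq⟩
  have h1 : k ∣ Fintype.card (ZMod q) - 1 := by
    rw [ZMod.card]
    exact (Nat.modEq_iff_dvd' hq.one_lt.le).1 h.symm
  obtain ⟨χ, hχ⟩ := MulChar.exists_mulChar_orderOf (ZMod q) h1
    (Complex.isPrimitiveRoot_exp k (by omega))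
  refine ⟨χ, ?_, ?_⟩
  · rintro rfl
    rw [orderOf_one] at hχ
    omega
  · rw [← hχ]
    exact pow_orderOf_eq_one χ

theorem exp_neg_le {a u : ℝ} (ha : 0 < a) (hu : 0 < u) :
    Real.exp (-u) ≤ a ^ a * u ^ (-a) := by
  have h1 : u / a ≤ Real.exp (u / a) := by
    have := Real.add_one_le_exp (u / a)
    linarith
  have h2 : (u / a) ^ a ≤ Real.exp u := by
    refine (Real.rpow_le_rpow (by positivity) h1 ha.le).trans (le_of_eq ?_)
    rw [← Real.exp_mul]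
    congr 1
    field_simp
  rw [Real.div_rpow hu.le ha.le] at h2
  rw [Real.exp_neg, Real.rpow_neg hu.le, ← div_eq_mul_inv]
  rw [inv_le_comm₀ (Real.exp_pos u) (by positivity), inv_div]
  exact h2

section

variable {ι : Type} [Countable ι] {lam : ι → ℝ} {N : ι → ℕ}

theorem exp_term_le (h0 : ∀ i, 0 ≤ lam i) (hN : ∀ i, N i = 0 → lam i = 0) {a X : ℝ} (ha : 0 < a)
    (hX : 0 < X) (i : ι) : lam i * Real.exp (-(N i / X)) ≤
      a ^ a * X ^ a * (lam i * (N i : ℝ) ^ (-a)) := by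
  by_cases hi : N i = 0
  · simp [hN i hi]
  · have hpos : (0 : ℝ) < (N i : ℝ) := by exact_mod_cast Nat.pos_of_ne_zero hi
    have h1 := exp_neg_le ha (show 0 < (N i : ℝ) / X by positivity)
    have h2 : ((N i : ℝ) / X) ^ (-a) = X ^ a * (N i : ℝ) ^ (-a) := by
      rw [Real.div_rpow hpos.le hX.le, Real.rpow_neg hX.le]
      field_simp
    rw [h2] at h1
    calc lam i * Real.exp (-(N i / X)) ≤ lam i * (a ^ a * (X ^ a * (N i : ℝ) ^ (-a))) :=
          mul_le_mul_of_nonneg_left h1 (h0 i)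
      _ = _ := by ring

theorem exp_summable (h0 : ∀ i, 0 ≤ lam i) (hN : ∀ i, N i = 0 → lam i = 0) {a X : ℝ} (ha : 0 < a)
    (hX : 0 < X) (hs : Summable fun i => lam i * (N i : ℝ) ^ (-a)) :
    Summable fun i => lam i * Real.exp (-(N i / X)) :=
  Summable.of_nonneg_of_le (fun i => mul_nonneg (h0 i) (Real.exp_pos _).le)
    (exp_term_le h0 hN ha hX) (hs.mul_left _)

theorem exp_sum_le (h0 : ∀ i, 0 ≤ lam i) (hN : ∀ i, N i = 0 → lam i = 0) {a X : ℝ} (ha : 0 < a)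
    (hX : 0 < X) (hs : Summable fun i => lam i * (N i : ℝ) ^ (-a)) :
    ∑' i, lam i * Real.exp (-(N i / X)) ≤ a ^ a * (∑' i, lam i * (N i : ℝ) ^ (-a)) * X ^ a := by
  have h1 := (exp_summable h0 hN ha hX hs).tsum_le_tsum (exp_term_le h0 hN ha hX) (hs.mul_left _)
  rw [tsum_mul_left] at h1
  refine h1.trans (le_of_eq ?_)
  ring

/-- the quadratic form of the twisted sums -/
theorem quad (h0 : ∀ i, 0 ≤ lam i) {X D E : ℝ}
    (hs : Summable fun i => lam i * Real.exp (-(N i / X)))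
    (hD : ∑' i, lam i * Real.exp (-(N i / X)) ≤ D) (QQ : Finset ℕ)
    (χ : (q : ℕ) → DirichletCharacter ℂ q)
    (hE : ∀ q ∈ QQ, ∀ q' ∈ QQ, q ≠ q' → ‖∑' i, (lam i : ℂ) *
      (χ q (N i : ZMod q) * (χ q')⁻¹ (N i : ZMod q')) * (Real.exp (-(N i / X)) : ℂ)‖ ≤ E)
    (hE0 : 0 ≤ E) (T : Finset ι) :
    ∑ i ∈ T, lam i * Real.exp (-(N i / X)) * ‖∑ q ∈ QQ, χ q (N i : ZMod q)‖ ^ 2 ≤
      QQ.card * D + (QQ.card : ℝ) ^ 2 * E := by
  have hχ : ∀ (q : ℕ) (n : ℕ), ‖χ q (n : ZMod q)‖ ≤ 1 := fun q n => (χ q).norm_le_one _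
  have hχ' : ∀ (q : ℕ) (n : ℕ), ‖(χ q)⁻¹ (n : ZMod q)‖ ≤ 1 := fun q n => ((χ q)⁻¹).norm_le_one _
  set F : ℕ → ℕ → ι → ℂ := fun q q' i => (lam i : ℂ) *
      (χ q (N i : ZMod q) * (χ q')⁻¹ (N i : ZMod q')) * (Real.exp (-(N i / X)) : ℂ) with hF
  have hFn : ∀ q q' i, ‖F q q' i‖ ≤ lam i * Real.exp (-(N i / X)) := by
    intro q q' i
    rw [hF]
    simp only [norm_mul]
    rw [Complex.norm_real, Complex.norm_real, Real.norm_eq_abs, Real.norm_eq_abs,
      abs_of_nonneg (h0 i), abs_of_pos (Real.exp_pos _)]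
    have h1 := hχ q (N i)
    have h2 := hχ' q' (N i)
    have h3 : ‖χ q (N i : ZMod q)‖ * ‖(χ q')⁻¹ (N i : ZMod q')‖ ≤ 1 :=
      mul_le_one₀ h1 (norm_nonneg _) h2
    have h4 := h0 i
    calc lam i * (‖χ q (N i : ZMod q)‖ * ‖(χ q')⁻¹ (N i : ZMod q')‖) * Real.exp (-(N i / X))
        ≤ lam i * 1 * Real.exp (-(N i / X)) := by gcongr
      _ = _ := by ring
  have hFs : ∀ q q', Summable (F q q') := fun q q' =>
    Summable.of_norm_bounded hs (hFn q q')
  have hkey : ∀ i, ((lam i * Real.exp (-(N i / X)) * ‖∑ q ∈ QQ, χ q (N i : ZMod q)‖ ^ 2 : ℝ) : ℂ) =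
      ∑ q ∈ QQ, ∑ q' ∈ QQ, F q q' i := by
    intro i
    have h1 : ((‖∑ q ∈ QQ, χ q (N i : ZMod q)‖ ^ 2 : ℝ) : ℂ) =
        (∑ q ∈ QQ, χ q (N i : ZMod q)) * ∑ q' ∈ QQ, (χ q')⁻¹ (N i : ZMod q') := by
      have h2 : ∑ q' ∈ QQ, (χ q')⁻¹ (N i : ZMod q') =
          (starRingEnd ℂ) (∑ q ∈ QQ, χ q (N i : ZMod q)) := by
        rw [map_sum]
        refine Finset.sum_congr rfl fun q' _ => ?_
        by_cases hq' : q' = 0
        · subst hq'
          by_cases hu : IsUnit ((N i : ℕ) : ZMod 0)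
          · have h3 : χ 0 ((N i : ℕ) : ZMod 0) = 1 ∨ χ 0 ((N i : ℕ) : ZMod 0) = -1 := by
              have h4 : ((N i : ℕ) : ZMod 0) = 1 ∨ ((N i : ℕ) : ZMod 0) = -1 :=
                Int.isUnit_iff.1 hu
              rcases h4 with h | h
              · left
                rw [h, map_one]
              · rw [h]
                have h5 : χ 0 (-1) * χ 0 (-1) = 1 := by
                  rw [← map_mul]
                  simp
                have h6 : (χ 0 (-1) - 1) * (χ 0 (-1) + 1) = 0 := by linear_combination h5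
                rcases mul_eq_zero.1 h6 with h | h
                · left; linear_combination h
                · right; linear_combination h
            rw [MulChar.inv_apply_eq_inv']
            rcases h3 with h | h <;> rw [h] <;> simp
          · rw [MulChar.map_nonunit _ hu, MulChar.map_nonunit _ hu, map_zero]
        · haveI : NeZero q' := ⟨hq'⟩
          exact (MulChar.star_apply' (χ q') _).symm
      rw [h2, Complex.mul_conj, Complex.normSq_eq_norm_sq]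
    push_cast at h1 ⊢
    rw [h1, Finset.sum_mul_sum, Finset.mul_sum]
    refine Finset.sum_congr rfl fun q _ => ?_
    rw [Finset.mul_sum]
    refine Finset.sum_congr rfl fun q' _ => ?_
    rw [hF]
    push_cast
    ring
  have hGs : Summable fun i => lam i * Real.exp (-(N i / X)) *
      ‖∑ q ∈ QQ, χ q (N i : ZMod q)‖ ^ 2 := by
    have h1 : Summable fun i => ((lam i * Real.exp (-(N i / X)) *
        ‖∑ q ∈ QQ, χ q (N i : ZMod q)‖ ^ 2 : ℝ) : ℂ) := by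
      simp_rw [hkey]
      exact summable_sum fun q _ => summable_sum fun q' _ => hFs q q'
    exact_mod_cast h1
  have h1 : ∑ i ∈ T, lam i * Real.exp (-(N i / X)) * ‖∑ q ∈ QQ, χ q (N i : ZMod q)‖ ^ 2 ≤
      ∑' i, lam i * Real.exp (-(N i / X)) * ‖∑ q ∈ QQ, χ q (N i : ZMod q)‖ ^ 2 :=
    hGs.sum_le_tsum _ fun i _ => mul_nonneg (mul_nonneg (h0 i) (Real.exp_pos _).le) (sq_nonneg _)
  refine h1.trans ?_
  have h2 : ((∑' i, lam i * Real.exp (-(N i / X)) * ‖∑ q ∈ QQ, χ q (N i : ZMod q)‖ ^ 2 : ℝ) : ℂ) =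
      ∑ q ∈ QQ, ∑ q' ∈ QQ, ∑' i, F q q' i := by
    rw [Complex.ofReal_tsum]
    simp_rw [hkey]
    rw [Summable.tsum_finsetSum fun q _ => summable_sum fun q' _ => hFs q q']
    refine Finset.sum_congr rfl fun q _ => ?_
    rw [Summable.tsum_finsetSum fun q' _ => hFs q q']
  have hD0 : 0 ≤ D := le_trans (tsum_nonneg fun i => mul_nonneg (h0 i) (Real.exp_pos _).le) hD
  have h3 : ∀ q ∈ QQ, ∀ q' ∈ QQ, ‖∑' i, F q q' i‖ ≤ if q = q' then D else E := by
    intro q hq q' hq'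
    split_ifs with h
    · refine le_trans ?_ hD
      exact tsum_of_norm_bounded hs.hasSum (hFn q q')
    · exact hE q hq q' hq' h
  calc ∑' i, lam i * Real.exp (-(N i / X)) * ‖∑ q ∈ QQ, χ q (N i : ZMod q)‖ ^ 2
      ≤ ‖((∑' i, lam i * Real.exp (-(N i / X)) * ‖∑ q ∈ QQ, χ q (N i : ZMod q)‖ ^ 2 : ℝ) : ℂ)‖ := by
        rw [Complex.norm_real, Real.norm_eq_abs]
        exact le_abs_self _
    _ ≤ ∑ q ∈ QQ, ∑ q' ∈ QQ, ‖∑' i, F q q' i‖ := by
        rw [h2]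
        exact (norm_sum_le _ _).trans (Finset.sum_le_sum fun q _ => norm_sum_le _ _)
    _ ≤ ∑ q ∈ QQ, ∑ q' ∈ QQ, (if q = q' then D else E) :=
        Finset.sum_le_sum fun q hq => Finset.sum_le_sum fun q' hq' => h3 q hq q' hq'
    _ ≤ ∑ q ∈ QQ, ∑ q' ∈ QQ, ((if q = q' then D else 0) + E) := by
        refine Finset.sum_le_sum fun q _ => Finset.sum_le_sum fun q' _ => ?_
        split_ifs <;> linarith
    _ = QQ.card * D + (QQ.card : ℝ) ^ 2 * E := by
        simp_rw [Finset.sum_add_distrib, Finset.sum_const, nsmul_eq_mul]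
        rw [Finset.sum_congr rfl fun q hq => Finset.sum_ite_eq QQ q fun _ => D]
        rw [Finset.sum_congr rfl fun q hq => if_pos hq, Finset.sum_const, nsmul_eq_mul]
        ring

end

end Pool.Agent.W189.RS
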