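import Mathlib
import Pool.Agent.W189.RS.Twist

/-! Power saving for the mass of a non-negative Dirichlet series on `k`-th powers. -/

set_option autoImplicit false

namespace Pool.Agent.W189.RS

open Complex Filter Topology

theorem primes_many {k : ℕ} (hk : 1 ≤ k) (bad : Finset ℕ) {δ ε : ℝ} (hδ : 0 < δ) (hδ1 : δ ≤ 1)
    (hε : 0 < ε) (hεδ : ε ≤ δ) : ∃ X₀ : ℝ, 1 ≤ X₀ ∧ ∀ X : ℝ, X₀ ≤ X → ∃ QQ : Finset ℕ,
      (∀ q ∈ QQ, q.Prime ∧ q ≡ 1 [MOD k] ∧ q ∉ bad ∧ (q : ℝ) ≤ X ^ δ ∧ X ^ (δ / 3) ≤ q) ∧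
      X ^ (δ - ε) ≤ QQ.card := by
  classical
  have : NeZero k := ⟨by omega⟩
  obtain ⟨c, hc, N0, hN0⟩ := Pool.Agent.H393R2.DC.primes_lower k 1 isUnit_one
  have e1 : ∀ᶠ X : ℝ in atTop, Real.log X ≤ X ^ (ε / 2) := by
    have := (isLittleO_log_rpow_atTop (show 0 < ε / 2 by positivity)).bound one_pos
    filter_upwards [this, eventually_ge_atTop 1] with X h1 h2
    rw [one_mul, Real.norm_eq_abs, Real.norm_eq_abs, abs_of_nonneg (Real.log_nonneg h2),
      abs_of_nonneg (by positivity)] at h1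
    exact h1
  have e2 : ∀ᶠ X : ℝ in atTop, (3 + (bad.card : ℝ)) ≤ c / 2 * X ^ (ε / 6) := by
    have := (tendsto_rpow_atTop (show 0 < ε / 6 by positivity)).const_mul_atTop
      (show 0 < c / 2 by positivity)
    exact this.eventually_ge_atTop _
  have e3 : ∀ᶠ X : ℝ in atTop, max (N0 : ℝ) 3 + 1 ≤ X ^ δ :=
    (tendsto_rpow_atTop hδ).eventually_ge_atTop _
  obtain ⟨X₁, hX₁⟩ := eventually_atTop.1 (e1.and (e2.and e3))
  refine ⟨max X₁ 1, le_max_right _ _, fun X hX => ?_⟩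
  obtain ⟨h1, h2, h3⟩ := hX₁ X ((le_max_left _ _).trans hX)
  have hX1 : 1 ≤ X := (le_max_right _ _).trans hX
  have hX0 : 0 < X := by linarith
  set Q := ⌊X ^ δ⌋₊ with hQ
  have hQle : (Q : ℝ) ≤ X ^ δ := Nat.floor_le (by positivity)
  have hQge : X ^ δ - 1 ≤ Q := by
    have := Nat.lt_floor_add_one (X ^ δ)
    linarith
  have hQ3 : (3 : ℝ) ≤ Q := by
    have := le_max_right (N0 : ℝ) 3
    linarith
  have hQN : N0 ≤ Q := by
    have := le_max_left (N0 : ℝ) 3
    have : (N0 : ℝ) ≤ Q := by linarith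
    exact_mod_cast this
  set S := (Finset.range (Q + 1)).filter (fun q : ℕ => q.Prime ∧ (q : ZMod k) = 1) with hS
  set Y := ⌈X ^ (δ / 3)⌉₊ with hY
  refine ⟨(S \ bad) \ Finset.range Y, ?_, ?_⟩
  · intro q hq
    rw [Finset.mem_sdiff, Finset.mem_sdiff, hS, Finset.mem_filter, Finset.mem_range,
      Finset.mem_range] at hq
    obtain ⟨⟨⟨h4, h5, h6⟩, h7⟩, h8⟩ := hq
    refine ⟨h5, ?_, h7, ?_, ?_⟩
    · rw [← ZMod.natCast_eq_natCast_iff, h6, Nat.cast_one]
    · have : (q : ℝ) ≤ Q := by exact_mod_cast (by omega : q ≤ Q)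
      linarith
    · have : Y ≤ q := by omega
      have h9 : (Y : ℝ) ≤ q := by exact_mod_cast this
      exact (Nat.le_ceil _).trans h9
  · have h4 : (S.card : ℝ) ≤ ((S \ bad) \ Finset.range Y).card + bad.card + Y := by
      have h5 : S ⊆ ((S \ bad) \ Finset.range Y) ∪ bad ∪ Finset.range Y := by
        intro q hq
        simp only [Finset.mem_union, Finset.mem_sdiff]
        tauto
      have h6 := (Finset.card_le_card h5).trans (Finset.card_union_le _ _)
      have h7 := Finset.card_union_le ((S \ bad) \ Finset.range Y) bad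
      rw [Finset.card_range] at h6
      exact_mod_cast h6.trans (by omega)
    have h5 : c * Q / Real.log Q ≤ S.card := hN0 Q hQN
    have h6 : Real.log Q ≤ X ^ (ε / 2) := by
      refine le_trans ?_ h1
      refine (Real.log_le_log (by linarith) hQle).trans ?_
      rw [Real.log_rpow hX0]
      have := Real.log_nonneg hX1
      nlinarith
    have h7 : 0 < Real.log Q := Real.log_pos (by linarith)
    have h8 : c / 2 * X ^ (δ - ε / 2) ≤ c * Q / Real.log Q := by
      rw [le_div_iff₀ h7]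
      have h9 : X ^ δ ≤ 2 * Q := by linarith
      calc c / 2 * X ^ (δ - ε / 2) * Real.log Q ≤ c / 2 * X ^ (δ - ε / 2) * X ^ (ε / 2) := by gcongr
        _ = c / 2 * X ^ δ := by
          rw [mul_assoc, ← Real.rpow_add hX0]
          congr 2
          ring
        _ ≤ c / 2 * (2 * Q) := by gcongr
        _ = c * Q := by ring
    have h9 : (Y : ℝ) ≤ X ^ (δ / 3) + 1 := (Nat.ceil_lt_add_one (by positivity)).le
    have h10 : X ^ (δ / 3) ≤ X ^ (δ - 2 * ε / 3) :=
      Real.rpow_le_rpow_of_exponent_le hX1 (by linarith)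
    have h11 : X ^ (δ - ε) ≤ X ^ (δ - 2 * ε / 3) :=
      Real.rpow_le_rpow_of_exponent_le hX1 (by linarith)
    have h12 : 1 ≤ X ^ (δ - 2 * ε / 3) := Real.one_le_rpow hX1 (by linarith)
    have h13 : (3 + (bad.card : ℝ)) * X ^ (δ - 2 * ε / 3) ≤ c / 2 * X ^ (δ - ε / 2) := by
      calc (3 + (bad.card : ℝ)) * X ^ (δ - 2 * ε / 3)
          ≤ c / 2 * X ^ (ε / 6) * X ^ (δ - 2 * ε / 3) := by gcongr
        _ = c / 2 * X ^ (δ - ε / 2) := by
          rw [mul_assoc, ← Real.rpow_add hX0]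
          congr 2
          ring
    have h14 : 0 ≤ (bad.card : ℝ) := Nat.cast_nonneg _
    have h15 : (bad.card : ℝ) ≤ bad.card * X ^ (δ - 2 * ε / 3) := le_mul_of_one_le_right h14 h12
    nlinarith

/-- The character sum at a `k`-th power. -/
theorem char_sum_ge {k : ℕ} (hk : 1 ≤ k) {X δ : ℝ} (hX : 1 < X) (hδ : 0 < δ) {QQ : Finset ℕ}
    (hQ : ∀ q ∈ QQ, q.Prime ∧ X ^ (δ / 3) ≤ q) (χ : (q : ℕ) → DirichletCharacter ℂ q)
    (hχ : ∀ q ∈ QQ, χ q ^ k = 1) {l : ℕ} (hl : 1 ≤ l) (hlX : ((l ^ k : ℕ) : ℝ) ≤ X) :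
    (QQ.card : ℝ) - 3 / δ ≤ ‖∑ q ∈ QQ, χ q (((l ^ k : ℕ) : ℕ) : ZMod q)‖ := by
  classical
  have h1 : ∀ q ∈ QQ, χ q (((l ^ k : ℕ) : ℕ) : ZMod q) = if q ∣ l then 0 else 1 := by
    intro q hq
    have hp := (hQ q hq).1
    have : Fact q.Prime := ⟨hp⟩
    rw [Nat.cast_pow, map_pow]
    split_ifs with h
    · rw [MulChar.map_nonunit, zero_pow (by omega)]
      rw [ZMod.isUnit_iff_coprime, Nat.coprime_comm, Nat.Prime.coprime_iff_not_dvd hp]
      exact fun h' => h' h
    · rw [← MulChar.pow_apply' _ (by omega), hχ q hq, MulChar.one_apply]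
      rw [ZMod.isUnit_iff_coprime, Nat.coprime_comm, Nat.Prime.coprime_iff_not_dvd hp]
      exact h
  rw [Finset.sum_congr rfl h1]
  have h2 : ∑ q ∈ QQ, (if q ∣ l then (0 : ℂ) else 1) = ((QQ.filter fun q => ¬ q ∣ l).card : ℂ) := by
    rw [Finset.card_filter]
    push_cast
    refine Finset.sum_congr rfl fun q _ => ?_
    by_cases h : q ∣ l <;> simp [h]
  rw [h2, Complex.norm_natCast]
  have h3 : (QQ.card : ℝ) = (QQ.filter fun q => q ∣ l).card + (QQ.filter fun q => ¬ q ∣ l).card := by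
    exact_mod_cast (Finset.card_filter_add_card_filter_not (s := QQ) (fun q => q ∣ l)).symm
  have h4 : ((QQ.filter fun q => q ∣ l).card : ℝ) ≤ 3 / δ := by
    have h5 : ∏ q ∈ QQ.filter (fun q => q ∣ l), q ∣ l :=
      Finset.prod_primes_dvd l (fun q hq => ((hQ q (Finset.mem_filter.1 hq).1).1).prime)
        (fun q hq => (Finset.mem_filter.1 hq).2)
    have h6 : ∏ q ∈ QQ.filter (fun q => q ∣ l), q ≤ l := Nat.le_of_dvd hl h5
    have h7 : (l : ℝ) ≤ X := by
      refine le_trans ?_ hlX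
      exact_mod_cast Nat.le_self_pow (by omega) l
    have h8 : (X ^ (δ / 3)) ^ (QQ.filter fun q => q ∣ l).card ≤ X := by
      calc (X ^ (δ / 3)) ^ (QQ.filter fun q => q ∣ l).card
          = ∏ _q ∈ QQ.filter (fun q => q ∣ l), X ^ (δ / 3) := by rw [Finset.prod_const]
        _ ≤ ∏ q ∈ QQ.filter (fun q => q ∣ l), (q : ℝ) :=
            Finset.prod_le_prod (fun _ _ => by positivity)
              fun q hq => (hQ q (Finset.mem_filter.1 hq).1).2
        _ = ((∏ q ∈ QQ.filter (fun q => q ∣ l), q : ℕ) : ℝ) := by push_cast; rfl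
        _ ≤ l := by exact_mod_cast h6
        _ ≤ X := h7
    have h9 : X ^ (δ / 3 * (QQ.filter fun q => q ∣ l).card) ≤ X ^ (1 : ℝ) := by
      rw [Real.rpow_mul (by linarith), Real.rpow_natCast, Real.rpow_one]
      exact h8
    have h10 := (Real.rpow_le_rpow_left_iff hX).1 h9
    rw [le_div_iff₀ hδ]
    linarith
  linarith

/-- **Power saving on `k`-th powers.** -/
theorem kpow_sum {ι : Type} [Countable ι] {lam : ι → ℝ} {N : ι → ℕ} (h0 : ∀ i, 0 ≤ lam i)
    (hN : ∀ i, N i = 0 → lam i = 0)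
    (habs : ∀ σ : ℝ, 1 < σ → Summable fun i => lam i * (N i : ℝ) ^ (-σ)) {d : ℝ} (hd : 0 ≤ d)
    {bad : Finset ℕ} (hconv : Conv lam N d bad) {k : ℕ} (hk : 2 ≤ k) {η : ℝ} (hη : 0 < η) :
    ∃ C : ℝ, ∀ X : ℝ, 1 ≤ X → ∀ T : Finset ι, (∀ i ∈ T, (N i : ℝ) ≤ X ∧ ∃ l : ℕ, N i = l ^ k) →
      ∑ i ∈ T, lam i ≤ C * X ^ (1 - 1 / (d + 1) + η) := by
  classical
  set δ : ℝ := 1 / (d + 1) with hδdef
  have hδ : 0 < δ := by positivity
  have hδ1 : δ ≤ 1 := by rw [hδdef, div_le_one (by positivity)]; linarith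
  have hδd : δ * d = 1 - δ := by rw [hδdef]; field_simp; ring
  set ε : ℝ := min (η / 4) (δ / 2) with hεdef
  have hε : 0 < ε := lt_min (by positivity) (by positivity)
  have hεη : ε ≤ η / 4 := min_le_left _ _
  have hεδ : ε ≤ δ / 2 := min_le_right _ _
  set B : ℝ := d / 2 + ε with hB
  have hB0 : 0 < B := by positivity
  obtain ⟨K, hK, hsm⟩ := smooth_bound (c := ε) (B := B) hε (by linarith) hB0
  obtain ⟨C, hC⟩ := hconv ε hε
  set C' : ℝ := max C 0 with hC'
  have hC'0 : 0 ≤ C' := le_max_right _ _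
  have hs := habs (1 + ε) (by linarith)
  have hs2 := habs 2 (by norm_num)
  set D1 : ℝ := (1 + ε) ^ (1 + ε) * ∑' i, lam i * (N i : ℝ) ^ (-(1 + ε)) with hD1
  have hD10 : 0 ≤ D1 := mul_nonneg (by positivity)
    (tsum_nonneg fun i => mul_nonneg (h0 i) (by positivity))
  obtain ⟨X₀, hX₀, hQQ⟩ := primes_many (k := k) (by omega) bad hδ hδ1 hε (by linarith)
  set X₁ : ℝ := max X₀ ((6 / δ) ^ (2 / δ)) + 1 with hX₁
  have hX₁1 : 1 ≤ X₁ := by
    have := le_max_left X₀ ((6 / δ) ^ (2 / δ))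
    linarith
  refine ⟨Real.exp 1 * D1 * X₁ ^ (1 + ε) + 4 * Real.exp 1 * (D1 + K * C'), fun X hX T hT => ?_⟩
  have hX0 : 0 < X := by linarith
  have hse := exp_summable h0 hN (show 0 < 1 + ε by positivity) hX0 hs
  have hDle := exp_sum_le h0 hN (show 0 < 1 + ε by positivity) hX0 hs
  rw [← hD1] at hDle
  have hexp : ∀ i ∈ T, 1 ≤ Real.exp 1 * Real.exp (-(N i / X)) := by
    intro i hi
    rw [← Real.exp_add]
    apply Real.one_le_exp
    have : (N i : ℝ) / X ≤ 1 := (div_le_one hX0).2 (hT i hi).1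
    linarith
  have hXe : 1 ≤ X ^ (1 - δ + η) := Real.one_le_rpow hX (by linarith)
  by_cases hXX : X < X₁
  · -- trivial bound
    have h1 : ∑ i ∈ T, lam i ≤ Real.exp 1 * ∑' i, lam i * Real.exp (-(N i / X)) := by
      calc ∑ i ∈ T, lam i ≤ ∑ i ∈ T, Real.exp 1 * (lam i * Real.exp (-(N i / X))) := by
            refine Finset.sum_le_sum fun i hi => ?_
            have := mul_le_mul_of_nonneg_left (hexp i hi) (h0 i)
            linarith
        _ = Real.exp 1 * ∑ i ∈ T, lam i * Real.exp (-(N i / X)) := by rw [Finset.mul_sum]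
        _ ≤ _ := by
            apply mul_le_mul_of_nonneg_left _ (Real.exp_pos _).le
            exact hse.sum_le_tsum _ fun i _ => mul_nonneg (h0 i) (Real.exp_pos _).le
    calc ∑ i ∈ T, lam i ≤ Real.exp 1 * (D1 * X ^ (1 + ε)) :=
          h1.trans (mul_le_mul_of_nonneg_left hDle (Real.exp_pos _).le)
      _ ≤ Real.exp 1 * (D1 * X₁ ^ (1 + ε)) := by gcongr
      _ = Real.exp 1 * D1 * X₁ ^ (1 + ε) := by ring
      _ ≤ Real.exp 1 * D1 * X₁ ^ (1 + ε) + 4 * Real.exp 1 * (D1 + K * C') :=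
          le_add_of_nonneg_right (by positivity)
      _ ≤ _ := le_mul_of_one_le_right (by positivity) hXe
  · push Not at hXX
    have hX1 : 1 < X := by
      have := le_max_left X₀ ((6 / δ) ^ (2 / δ))
      linarith
    obtain ⟨QQ, hQ1, hQ2⟩ := hQQ X (by
      have := le_max_left X₀ ((6 / δ) ^ (2 / δ))
      linarith)
    set R : ℝ := ((QQ.card : ℕ) : ℝ) with hR
    have hR0 : 0 < R := lt_of_lt_of_le (by positivity) hQ2
    have hR6 : 6 / δ ≤ R := by
      refine le_trans ?_ hQ2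
      have h1 : (6 / δ) ^ (2 / δ) ≤ X := by
        have := le_max_right X₀ ((6 / δ) ^ (2 / δ))
        linarith
      calc 6 / δ = ((6 / δ) ^ (2 / δ)) ^ (δ / 2) := by
            rw [← Real.rpow_mul (by positivity)]
            rw [show 2 / δ * (δ / 2) = 1 by field_simp, Real.rpow_one]
        _ ≤ X ^ (δ / 2) := Real.rpow_le_rpow (by positivity) h1 (by positivity)
        _ ≤ X ^ (δ - ε) := Real.rpow_le_rpow_of_exponent_le hX (by linarith)
    -- characters
    have hch : ∀ q : ℕ, ∃ χ : DirichletCharacter ℂ q, q ∈ QQ → χ ≠ 1 ∧ χ ^ k = 1 := by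
      intro q
      by_cases hq : q ∈ QQ
      · obtain ⟨χ, h1, h2⟩ := exists_char (hQ1 q hq).1 hk (hQ1 q hq).2.1
        exact ⟨χ, fun _ => ⟨h1, h2⟩⟩
      · exact ⟨1, fun h => absurd h hq⟩
    choose χ hχ using hch
    set A : ℝ := C' * (X ^ δ * X ^ δ) ^ B with hA
    have hA0 : 0 ≤ A := by positivity
    have hE : ∀ q ∈ QQ, ∀ q' ∈ QQ, q ≠ q' → ‖∑' i, (lam i : ℂ) *
        (χ q (N i : ZMod q) * (χ q')⁻¹ (N i : ZMod q')) * (Real.exp (-(N i / X)) : ℂ)‖ ≤
        K * A * X ^ ε := by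
      intro q hq q' hq' hqq
      obtain ⟨f, hf1, hf2, hf3⟩ := hC q q' (χ q) (χ q')⁻¹ (hQ1 q hq).1 (hQ1 q' hq').1 hqq
        (hQ1 q hq).2.2.1 (hQ1 q' hq').2.2.1 (hχ q hq).1 (by
          rw [ne_eq, inv_eq_one]
          exact (hχ q' hq').1)
      refine hsm (w := fun i => χ q (N i : ZMod q) * (χ q')⁻¹ (N i : ZMod q')) (f := f) h0 hN ?_ hs2
        hX hA0 (fun s hs' => hf1 s (by rw [hs']; norm_num)) (fun s h1 _ => hf2 s (by linarith)) ?_
      · intro i
        rw [norm_mul]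
        exact mul_le_one₀ ((χ q).norm_le_one _) (norm_nonneg _) ((χ q')⁻¹.norm_le_one _)
      · intro s h1 _
        refine (hf3 s h1).trans ?_
        have hq0 : (0 : ℝ) ≤ q := Nat.cast_nonneg _
        have hq0' : (0 : ℝ) ≤ q' := Nat.cast_nonneg _
        have h5 : (q : ℝ) * q' ≤ X ^ δ * X ^ δ :=
          mul_le_mul (hQ1 q hq).2.2.2.1 (hQ1 q' hq').2.2.2.1 hq0' (by positivity)
        calc C * ((q : ℝ) * q' * (1 + |s.im|)) ^ (d / 2 + ε)
            ≤ C' * ((q : ℝ) * q' * (1 + |s.im|)) ^ B :=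
              mul_le_mul_of_nonneg_right (le_max_left _ _) (by positivity)
          _ ≤ C' * (X ^ δ * X ^ δ * (1 + |s.im|)) ^ B := by
              apply mul_le_mul_of_nonneg_left _ hC'0
              apply Real.rpow_le_rpow (by positivity) _ hB0.le
              gcongr
          _ = A * (1 + |s.im|) ^ B := by
              rw [hA, Real.mul_rpow (by positivity) (by positivity)]
              ring
    have hquad := quad h0 hse hDle QQ χ hE (by positivity) T
    -- lower bound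
    have hlow : ∀ i ∈ T, lam i * (R / 2) ^ 2 ≤ Real.exp 1 * (lam i * Real.exp (-(N i / X)) *
        ‖∑ q ∈ QQ, χ q (N i : ZMod q)‖ ^ 2) := by
      intro i hi
      by_cases hi0 : N i = 0
      · simp [hN i hi0]
      · obtain ⟨h1, l, hl⟩ := hT i hi
        have hl1 : 1 ≤ l := by
          rcases Nat.eq_zero_or_pos l with h | h
          · rw [h, zero_pow (by omega)] at hl
            exact absurd hl hi0
          · exact h
        have h2 := char_sum_ge (k := k) (by omega) hX1 hδ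
          (fun q hq => ⟨(hQ1 q hq).1, (hQ1 q hq).2.2.2.2⟩) χ (fun q hq => (hχ q hq).2) hl1
          (by rw [← hl]; exact h1)
        rw [← hl] at h2
        have h3 : R / 2 ≤ ‖∑ q ∈ QQ, χ q (N i : ZMod q)‖ := by
          refine le_trans ?_ h2
          have : 6 / δ = 2 * (3 / δ) := by ring
          rw [this] at hR6
          rw [hR]
          rw [hR] at hR6
          linarith
        have h4 : (R / 2) ^ 2 ≤ ‖∑ q ∈ QQ, χ q (N i : ZMod q)‖ ^ 2 :=
          pow_le_pow_left₀ (by positivity) h3 2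
        have h5 := hexp i hi
        have h6 := h0 i
        calc lam i * (R / 2) ^ 2 = 1 * (lam i * (R / 2) ^ 2) := by ring
          _ ≤ (Real.exp 1 * Real.exp (-(N i / X))) *
              (lam i * ‖∑ q ∈ QQ, χ q (N i : ZMod q)‖ ^ 2) :=
            mul_le_mul h5 (mul_le_mul_of_nonneg_left h4 h6) (by positivity) (by positivity)
          _ = _ := by ring
    have h1 : (∑ i ∈ T, lam i) * (R / 2) ^ 2 ≤
        Real.exp 1 * (R * (D1 * X ^ (1 + ε)) + R ^ 2 * (K * A * X ^ ε)) := by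
      rw [Finset.sum_mul]
      refine (Finset.sum_le_sum hlow).trans ?_
      rw [← Finset.mul_sum]
      exact mul_le_mul_of_nonneg_left hquad (Real.exp_pos _).le
    have h2 : ∑ i ∈ T, lam i ≤ 4 * Real.exp 1 * (D1 * X ^ (1 + ε) / R + K * A * X ^ ε) := by
      have h3 : 0 < (R / 2) ^ 2 := by positivity
      refine le_of_mul_le_mul_right (h1.trans (le_of_eq ?_)) h3
      field_simp
      ring
    have h3 : X ^ (1 + ε) / R ≤ X ^ (1 - δ + η) := by
      rw [div_le_iff₀ hR0]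
      calc X ^ (1 + ε) = X ^ (1 - δ + 2 * ε) * X ^ (δ - ε) := by
            rw [← Real.rpow_add hX0]
            congr 1
            ring
        _ ≤ X ^ (1 - δ + η) * R := by
            apply mul_le_mul _ hQ2 (by positivity) (by positivity)
            exact Real.rpow_le_rpow_of_exponent_le hX (by linarith)
    have h4 : (X ^ δ * X ^ δ) ^ B * X ^ ε ≤ X ^ (1 - δ + η) := by
      rw [← Real.rpow_add hX0, ← Real.rpow_mul hX0.le, ← Real.rpow_add hX0]
      apply Real.rpow_le_rpow_of_exponent_le hX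
      rw [hB]
      have h5 : (δ + δ) * (d / 2 + ε) = δ * d + 2 * δ * ε := by ring
      rw [h5, hδd]
      have h6 : δ * ε ≤ ε := by nlinarith
      linarith
    calc ∑ i ∈ T, lam i ≤ 4 * Real.exp 1 * (D1 * X ^ (1 + ε) / R + K * A * X ^ ε) := h2
      _ = 4 * Real.exp 1 * (D1 * (X ^ (1 + ε) / R) + K * C' * ((X ^ δ * X ^ δ) ^ B * X ^ ε)) := by
          rw [hA]; ring
      _ ≤ 4 * Real.exp 1 * (D1 * X ^ (1 - δ + η) + K * C' * X ^ (1 - δ + η)) := by gcongr
      _ = 4 * Real.exp 1 * (D1 + K * C') * X ^ (1 - δ + η) := by ring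
      _ ≤ (Real.exp 1 * D1 * X₁ ^ (1 + ε) + 4 * Real.exp 1 * (D1 + K * C')) * X ^ (1 - δ + η) := by
          apply mul_le_mul_of_nonneg_right _ (by positivity)
          exact le_add_of_nonneg_left (by positivity)

end Pool.Agent.W189.RS
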