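import Mathlib
import Pool.Agent.W189.RS.Kpow
import Pool.Agent.W189.RS.Cnt

/-! Counting places with large Satake parameters. -/

set_option autoImplicit false

namespace Pool.Agent.W189.RS

open Filter Topology

/-- A family of local parameters `α v`, indexed by places `v` of norm `q v`, and the Dirichlet series
`∑ lam i N_i^{-s}` which is the product of the local Rankin-Selberg factors. -/
structure Sys {P ι : Type} {n : ℕ} (q : P → ℕ) (α : P → Fin n → ℂ) (lam : ι → ℝ) (N : ι → ℕ)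
    (e : P → ℕ → ι) (d : ℝ) (bad : Finset ℕ) : Prop where
  two_le : ∀ v, 2 ≤ q v
  fin : ∀ b : ℕ, {v | q v ≤ b}.Finite
  unit : ∀ v, Unitary (α v)
  norm : ∀ v k, 1 ≤ k → N (e v k) = q v ^ k
  coeff : ∀ v k, 1 ≤ k → lam (e v k) = (rsLoc (α v) k).re
  inj : ∀ k, 1 ≤ k → Function.Injective fun v => e v k
  nonneg : ∀ i, 0 ≤ lam i
  zero : ∀ i, N i = 0 → lam i = 0
  abs : ∀ σ : ℝ, 1 < σ → Summable fun i => lam i * (N i : ℝ) ^ (-σ)
  d_nonneg : 0 ≤ d
  conv : Conv lam N d bad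

section

variable {P ι : Type} [Countable ι] {n : ℕ} {q : P → ℕ} {α : P → Fin n → ℂ} {lam : ι → ℝ}
  {N : ι → ℕ} {e : P → ℕ → ι} {d : ℝ} {bad : Finset ℕ}

/-- the exponent for the `k`-th power sums -/
noncomputable def bet (d : ℝ) (k : ℕ) : ℝ := if k = 1 then 1 else k * (1 - 1 / (d + 1))

theorem Sys.summable (h : Sys q α lam N e d bad) {k : ℕ} (hk : 1 ≤ k) {ε : ℝ} (hε : 0 < ε) :
    Summable fun v => (rsLoc (α v) k).re * (q v : ℝ) ^ (-(bet d k + ε)) := by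
  classical
  rcases Nat.lt_or_ge 1 k with hk2 | hk1
  · have hk0 : (0 : ℝ) < k := by exact_mod_cast hk
    have hd := h.d_nonneg
    obtain ⟨C, hC⟩ := kpow_sum h.nonneg h.zero h.abs h.d_nonneg h.conv (k := k) (by omega)
      (η := ε / (2 * k)) (by positivity)
    have hb : bet d k = k * (1 - 1 / (d + 1)) := by
      unfold bet
      rw [if_neg (by omega)]
    have hb0 : 0 ≤ 1 - 1 / (d + 1) := by
      rw [sub_nonneg, div_le_one (by positivity)]
      linarith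
    have h1 := summable_of_growth (a := fun v => (rsLoc (α v) k).re) (N := q)
      (fun v => (rsLoc_nonneg (α v) k).2.1) (fun v => by have := h.two_le v; omega)
      (C := C) (β := bet d k + ε / 2) (by rw [hb]; positivity) (fun x hx T hT => by
        have hx0 : 0 < x := by linarith
        have h2 := hC (x ^ k) (one_le_pow₀ hx) (T.image fun v => e v k) (by
          intro i hi
          obtain ⟨v, hv, rfl⟩ := Finset.mem_image.1 hi
          rw [h.norm v k hk]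
          refine ⟨?_, q v, rfl⟩
          push_cast
          exact pow_le_pow_left₀ (Nat.cast_nonneg _) (hT v hv) k)
        rw [Finset.sum_image fun v _ w _ hvw => h.inj k hk hvw] at h2
        rw [Finset.sum_congr rfl fun v _ => (h.coeff v k hk)] at h2
        refine h2.trans (le_of_eq ?_)
        rw [← Real.rpow_natCast, ← Real.rpow_mul hx0.le, hb]
        congr 2
        field_simp) (ε := ε / 2) (by positivity)
    refine h1.congr fun v => ?_
    congr 2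
    ring
  · have hk1' : k = 1 := le_antisymm hk1 hk
    subst hk1'
    have h1 := (h.abs (1 + ε) (by linarith)).comp_injective (h.inj 1 le_rfl)
    refine h1.congr fun v => ?_
    simp only [Function.comp]
    rw [h.coeff v 1 le_rfl, h.norm v 1 le_rfl, pow_one]
    unfold bet
    rw [if_pos rfl]

theorem Sys.level (h : Sys q α lam N e d bad) (hn : 0 < n) {k : ℕ} (hk : 1 ≤ k) {θ : ℝ}
    (hθ : 2 * k * θ ≤ bet d k) {ε : ℝ} (hε : 0 < ε) : ∃ C : ℝ, 0 ≤ C ∧ ∀ x : ℝ, 1 ≤ x →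
      ∀ T : Finset P, (∀ v ∈ T, (q v : ℝ) ≤ x ∧ ((q v : ℝ) ^ θ) ^ k / (2 * n) ≤ ‖pw (α v) k‖) →
      (T.card : ℝ) ≤ C * x ^ (bet d k - 2 * k * θ + ε) := by
  have hn0 : (0 : ℝ) < n := by exact_mod_cast hn
  have hs := h.summable hk hε
  set S : ℝ := ∑' v, (rsLoc (α v) k).re * (q v : ℝ) ^ (-(bet d k + ε)) with hS
  have hS0 : 0 ≤ S := tsum_nonneg fun v => mul_nonneg (rsLoc_nonneg _ _).2.1 (by positivity)
  refine ⟨4 * n ^ 2 * k * S, by positivity, fun x hx T hT => ?_⟩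
  have hx0 : 0 < x := by linarith
  have hk0 : (0 : ℝ) < k := by exact_mod_cast hk
  have h1 : ∀ v ∈ T, (1 : ℝ) ≤ 4 * n ^ 2 * k * ((rsLoc (α v) k).re *
      (q v : ℝ) ^ (-(bet d k + ε))) * x ^ (bet d k - 2 * k * θ + ε) := by
    intro v hv
    obtain ⟨h2, h3⟩ := hT v hv
    have hq : (1 : ℝ) ≤ q v := by
      have := h.two_le v
      exact_mod_cast (by omega : 1 ≤ q v)
    have hq0 : (0 : ℝ) < q v := by linarith
    obtain ⟨j, rfl⟩ : ∃ j, k = j + 1 := ⟨k - 1, by omega⟩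
    have h4 := (rsLoc_nonneg (α v) j).2.2
    have h5 : (((q v : ℝ) ^ θ) ^ (j + 1) / (2 * n)) ^ 2 ≤ ((j : ℝ) + 1) * (rsLoc (α v) (j + 1)).re :=
      (pow_le_pow_left₀ (by positivity) h3 2).trans h4
    have h6 : (((q v : ℝ) ^ θ) ^ (j + 1) / (2 * n)) ^ 2 =
        (q v : ℝ) ^ (2 * ((j + 1 : ℕ) : ℝ) * θ) / (4 * n ^ 2) := by
      rw [div_pow, ← pow_mul, ← Real.rpow_natCast, ← Real.rpow_mul hq0.le]
      congr 1
      · congr 1
        push_cast
        ring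
      · ring
    rw [h6, div_le_iff₀ (by positivity)] at h5
    have h7 : (q v : ℝ) ^ (bet d (j + 1) - 2 * ((j + 1 : ℕ) : ℝ) * θ + ε) ≤
        x ^ (bet d (j + 1) - 2 * ((j + 1 : ℕ) : ℝ) * θ + ε) :=
      Real.rpow_le_rpow hq0.le h2 (by linarith)
    have h8 : 0 ≤ (rsLoc (α v) (j + 1)).re := (rsLoc_nonneg _ _).2.1
    calc (1 : ℝ) = (q v : ℝ) ^ (2 * ((j + 1 : ℕ) : ℝ) * θ) * ((q v : ℝ) ^ (-(bet d (j + 1) + ε)) *
          (q v : ℝ) ^ (bet d (j + 1) - 2 * ((j + 1 : ℕ) : ℝ) * θ + ε)) := by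
          rw [← Real.rpow_add hq0, ← Real.rpow_add hq0]
          ring_nf
          rw [Real.rpow_zero]
      _ ≤ (((j : ℝ) + 1) * (rsLoc (α v) (j + 1)).re * (4 * n ^ 2)) *
          ((q v : ℝ) ^ (-(bet d (j + 1) + ε)) *
          x ^ (bet d (j + 1) - 2 * ((j + 1 : ℕ) : ℝ) * θ + ε)) := by
          gcongr
      _ = _ := by
          push_cast
          ring
  calc (T.card : ℝ) = ∑ _v ∈ T, (1 : ℝ) := by rw [Finset.sum_const, nsmul_eq_mul, mul_one]
    _ ≤ ∑ v ∈ T, 4 * n ^ 2 * k * ((rsLoc (α v) k).re *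
      (q v : ℝ) ^ (-(bet d k + ε))) * x ^ (bet d k - 2 * k * θ + ε) := Finset.sum_le_sum h1
    _ = 4 * n ^ 2 * k * (∑ v ∈ T, (rsLoc (α v) k).re *
      (q v : ℝ) ^ (-(bet d k + ε))) * x ^ (bet d k - 2 * k * θ + ε) := by
        rw [← Finset.sum_mul, ← Finset.mul_sum]
    _ ≤ 4 * n ^ 2 * k * S * x ^ (bet d k - 2 * k * θ + ε) := by
        gcongr
        exact hs.sum_le_tsum _ fun v _ => mul_nonneg (rsLoc_nonneg _ _).2.1 (by positivity)

/-- some Satake parameter at `v` has modulus at least `q_v^θ` -/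
def Exc (q : P → ℕ) (α : P → Fin n → ℂ) (θ : ℝ) (v : P) : Prop := ∃ i, (q v : ℝ) ^ θ ≤ ‖α v i‖

/-- **Counting exceptional places.** -/
theorem Sys.count (h : Sys q α lam N e d bad) {θ : ℝ} (hθ : 0 < θ)
    (hθ2 : 2 * θ ≤ 1 - 1 / (d + 1)) {ε : ℝ} (hε : 0 < ε) : ∃ C : ℝ, 0 ≤ C ∧ ∀ x : ℝ, 1 ≤ x →
      (({v | (q v : ℝ) ≤ x ∧ Exc q α θ v}.ncard : ℕ) : ℝ) ≤
        C * (x ^ (1 - 2 * θ + ε) + x ^ (((n / 2 : ℕ) : ℝ) * (1 - 1 / (d + 1) - 2 * θ) + ε)) := by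
  classical
  set δ : ℝ := 1 / (d + 1) with hδ
  rcases Nat.eq_zero_or_pos n with hn | hn
  · subst hn
    refine ⟨0, le_rfl, fun x hx => ?_⟩
    have : {v | (q v : ℝ) ≤ x ∧ Exc q α θ v} = ∅ := by
      ext v
      simp only [Set.mem_ofPred_eq, Set.mem_empty_iff_false, iff_false]
      rintro ⟨_, i, _⟩
      exact i.elim0
    rw [this]
    simp
  have hd := h.d_nonneg
  have hδ0 : 0 < δ := by positivity
  have hlev : ∀ k, ∃ C : ℝ, 1 ≤ k → 0 ≤ C ∧ ∀ x : ℝ, 1 ≤ x →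
      ∀ T : Finset P, (∀ v ∈ T, (q v : ℝ) ≤ x ∧ ((q v : ℝ) ^ θ) ^ k / (2 * n) ≤ ‖pw (α v) k‖) →
      (T.card : ℝ) ≤ C * x ^ (bet d k - 2 * k * θ + ε) := by
    intro k
    by_cases hk : 1 ≤ k
    · obtain ⟨C, hC⟩ := h.level hn hk (θ := θ) (by
        unfold bet
        have hk0 : (0 : ℝ) < k := by exact_mod_cast hk
        split_ifs with hk1
        · subst hk1
          push_cast
          linarith
        · rw [← hδ]
          nlinarith) hε
      exact ⟨C, fun _ => hC⟩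
    · exact ⟨0, fun h => absurd h hk⟩
  choose Ck hCk using hlev
  -- the small places
  set b : ℕ := ⌈(2 * (n : ℝ) ^ 2) ^ (1 / θ)⌉₊ with hb
  set c0 : ℝ := ((h.fin b).toFinset.card : ℝ) with hc0
  set m : ℕ := n / 2 with hm
  refine ⟨c0 + ∑ k ∈ Finset.Icc 1 m, Ck k, by
    have : 0 ≤ ∑ k ∈ Finset.Icc 1 m, Ck k :=
      Finset.sum_nonneg fun k hk => (hCk k (Finset.mem_Icc.1 hk).1).1
    positivity, fun x hx => ?_⟩
  have hx0 : 0 < x := by linarith
  set W : ℝ := x ^ (1 - 2 * θ + ε) + x ^ ((m : ℝ) * (1 - δ - 2 * θ) + ε) with hW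
  have hW0 : 0 ≤ W := by positivity
  have hW1 : 1 ≤ W := by
    have h1 : 1 ≤ x ^ (1 - 2 * θ + ε) := Real.one_le_rpow hx (by linarith)
    have h2 : 0 ≤ x ^ ((m : ℝ) * (1 - δ - 2 * θ) + ε) := by positivity
    linarith
  have hexpk : ∀ k ∈ Finset.Icc 1 m, x ^ (bet d k - 2 * k * θ + ε) ≤ W := by
    intro k hk
    obtain ⟨hk1, hkm⟩ := Finset.mem_Icc.1 hk
    have hkm' : (k : ℝ) ≤ m := by exact_mod_cast hkm
    unfold bet
    split_ifs with hk1'
    · subst hk1'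
      have h2 : 0 ≤ x ^ ((m : ℝ) * (1 - δ - 2 * θ) + ε) := by positivity
      have h3 : (1 : ℝ) - 2 * ((1 : ℕ) : ℝ) * θ + ε = 1 - 2 * θ + ε := by push_cast; ring
      rw [h3]
      linarith
    · have h2 : 0 ≤ x ^ (1 - 2 * θ + ε) := by positivity
      have h3 : x ^ ((k : ℝ) * (1 - 1 / (d + 1)) - 2 * k * θ + ε) ≤
          x ^ ((m : ℝ) * (1 - δ - 2 * θ) + ε) := by
        apply Real.rpow_le_rpow_of_exponent_le hx
        rw [← hδ]
        have : 0 ≤ 1 - δ - 2 * θ := by linarith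
        nlinarith
      linarith
  have hsum0 : 0 ≤ ∑ k ∈ Finset.Icc 1 m, Ck k :=
    Finset.sum_nonneg fun k hk => (hCk k (Finset.mem_Icc.1 hk).1).1
  refine ncard_le_of_finset (by positivity) fun T hT => ?_
  set Tk : ℕ → Finset P := fun k => T.filter fun v =>
    ((q v : ℝ) ^ θ) ^ k / (2 * n) ≤ ‖pw (α v) k‖ with hTk
  have hcover : T ⊆ (h.fin b).toFinset ∪ (Finset.Icc 1 m).biUnion Tk := by
    intro v hv
    obtain ⟨hvx, i, hi⟩ := hT hv
    have hq : (1 : ℝ) ≤ q v := by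
      have := h.two_le v
      exact_mod_cast (by omega : 1 ≤ q v)
    have hq0 : (0 : ℝ) < q v := by linarith
    rw [Finset.mem_union]
    by_cases hsmall : q v ≤ b
    · left
      rw [Set.Finite.mem_toFinset]
      exact hsmall
    · right
      push Not at hsmall
      have hne : (Finset.univ : Finset (Fin n)).Nonempty := ⟨i, Finset.mem_univ _⟩
      obtain ⟨i₁, _, hi₁⟩ := Finset.exists_max_image Finset.univ (fun i => ‖α v i‖) hne
      set M : ℝ := ‖α v i₁‖ with hM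
      have hMi : (q v : ℝ) ^ θ ≤ M := hi.trans (hi₁ i (Finset.mem_univ _))
      have hbig : 2 * (n : ℝ) ^ 2 ≤ M := by
        refine le_trans ?_ hMi
        have h1 : (2 * (n : ℝ) ^ 2) ^ (1 / θ) ≤ q v := by
          refine (Nat.le_ceil _).trans ?_
          rw [← hb]
          exact_mod_cast hsmall.le
        calc 2 * (n : ℝ) ^ 2 = ((2 * (n : ℝ) ^ 2) ^ (1 / θ)) ^ θ := by
              rw [← Real.rpow_mul (by positivity), one_div, inv_mul_cancel₀ hθ.ne', Real.rpow_one]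
          _ ≤ (q v : ℝ) ^ θ := Real.rpow_le_rpow (by positivity) h1 hθ.le
      obtain ⟨k, hk1, hk2, hk3⟩ := exists_pw_ge (h.unit v) ⟨i₁, rfl⟩
        (fun i => hi₁ i (Finset.mem_univ _)) hbig
      rw [Finset.mem_biUnion]
      refine ⟨k, Finset.mem_Icc.2 ⟨hk1, hk2⟩, Finset.mem_filter.2 ⟨hv, ?_⟩⟩
      refine le_trans ?_ hk3
      have hn0 : (0 : ℝ) < n := by exact_mod_cast hn
      gcongr
  have hcard : (T.card : ℝ) ≤ c0 + ∑ k ∈ Finset.Icc 1 m, ((Tk k).card : ℝ) := by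
    have h1 := (Finset.card_le_card hcover).trans (Finset.card_union_le _ _)
    have h2 := Finset.card_biUnion_le (s := Finset.Icc 1 m) (t := Tk)
    have h3 : T.card ≤ (h.fin b).toFinset.card + ∑ k ∈ Finset.Icc 1 m, (Tk k).card := by omega
    rw [hc0]
    exact_mod_cast h3
  calc (T.card : ℝ) ≤ c0 + ∑ k ∈ Finset.Icc 1 m, ((Tk k).card : ℝ) := hcard
    _ ≤ c0 * W + ∑ k ∈ Finset.Icc 1 m, Ck k * W := by
        apply add_le_add (le_mul_of_one_le_right (by positivity) hW1)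
        refine Finset.sum_le_sum fun k hk => ?_
        have hk1 := (Finset.mem_Icc.1 hk).1
        refine ((hCk k hk1).2 x hx (Tk k) fun v hv => ?_).trans
          (mul_le_mul_of_nonneg_left (hexpk k hk) (hCk k hk1).1)
        rw [hTk, Finset.mem_filter] at hv
        exact ⟨(hT hv.1).1, hv.2⟩
    _ = (c0 + ∑ k ∈ Finset.Icc 1 m, Ck k) * W := by rw [← Finset.sum_mul]; ring

theorem Sys.fin_le (h : Sys q α lam N e d bad) (x : ℝ) : {v | (q v : ℝ) ≤ x}.Finite := by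
  refine (h.fin ⌊x⌋₊).subset fun v hv => ?_
  exact Nat.le_floor hv

/-- **Power saving.** -/
theorem Sys.saving (h : Sys q α lam N e d bad) (hd0 : 0 < d) {θ : ℝ} (hθ : 0 < θ)
    (hθ2 : ((n / 2 : ℕ) : ℝ) * (1 - 1 / (d + 1) - 2 * θ) < 1) : ∃ η C : ℝ, 0 < η ∧ 0 ≤ C ∧
      ∀ x : ℝ, 1 ≤ x → (({v | (q v : ℝ) ≤ x ∧ Exc q α θ v}.ncard : ℕ) : ℝ) ≤ C * x ^ (1 - η) := by
  classical
  set δ : ℝ := 1 / (d + 1) with hδ
  have hδ1 : δ < 1 := by rw [hδ, div_lt_one (by positivity)]; linarith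
  set θ' : ℝ := min θ ((1 - δ) / 2) with hθ'
  have hθ'0 : 0 < θ' := lt_min hθ (by linarith)
  have hθ'1 : θ' ≤ θ := min_le_left _ _
  have hθ'2 : 2 * θ' ≤ 1 - δ := by
    have := min_le_right θ ((1 - δ) / 2)
    linarith
  have hθ'3 : ((n / 2 : ℕ) : ℝ) * (1 - δ - 2 * θ') < 1 := by
    rcases min_choice θ ((1 - δ) / 2) with h1 | h1
    · rw [hθ', h1]
      exact hθ2
    · rw [hθ', h1]
      have : 1 - δ - 2 * ((1 - δ) / 2) = 0 := by ring
      rw [this, mul_zero]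
      exact one_pos
  set η : ℝ := min (2 * θ') (1 - ((n / 2 : ℕ) : ℝ) * (1 - δ - 2 * θ')) / 2 with hη
  have h1 := min_le_left (2 * θ') (1 - ((n / 2 : ℕ) : ℝ) * (1 - δ - 2 * θ'))
  have h2 := min_le_right (2 * θ') (1 - ((n / 2 : ℕ) : ℝ) * (1 - δ - 2 * θ'))
  have h3 : 0 < min (2 * θ') (1 - ((n / 2 : ℕ) : ℝ) * (1 - δ - 2 * θ')) :=
    lt_min (by positivity) (by linarith)
  have hη0 : 0 < η := by positivity
  obtain ⟨C, hC0, hC⟩ := h.count hθ'0 hθ'2 hη0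
  refine ⟨η, C * 2, hη0, by positivity, fun x hx => ?_⟩
  have h0 : {v | (q v : ℝ) ≤ x ∧ Exc q α θ v}.ncard ≤ {v | (q v : ℝ) ≤ x ∧ Exc q α θ' v}.ncard := by
    refine Set.ncard_le_ncard ?_ ((h.fin_le x).subset fun v hv => hv.1)
    rintro v ⟨hv, i, hi⟩
    refine ⟨hv, i, le_trans ?_ hi⟩
    have := h.two_le v
    exact Real.rpow_le_rpow_of_exponent_le (by exact_mod_cast (by omega : 1 ≤ q v)) hθ'1
  have h4 : x ^ (1 - 2 * θ' + η) ≤ x ^ (1 - η) :=
    Real.rpow_le_rpow_of_exponent_le hx (by linarith)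
  have h5 : x ^ (((n / 2 : ℕ) : ℝ) * (1 - δ - 2 * θ') + η) ≤ x ^ (1 - η) :=
    Real.rpow_le_rpow_of_exponent_le hx (by linarith)
  calc (({v | (q v : ℝ) ≤ x ∧ Exc q α θ v}.ncard : ℕ) : ℝ)
      ≤ (({v | (q v : ℝ) ≤ x ∧ Exc q α θ' v}.ncard : ℕ) : ℝ) := by exact_mod_cast h0
    _ ≤ C * (x ^ (1 - 2 * θ' + η) + x ^ (((n / 2 : ℕ) : ℝ) * (1 - δ - 2 * θ') + η)) := hC x hx
    _ ≤ C * (x ^ (1 - η) + x ^ (1 - η)) := by gcongr
    _ = C * 2 * x ^ (1 - η) := by ring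

/-- **Hypothesis H of Rudnick and Sarnak.** -/
theorem Sys.hypH (h : Sys q α lam N e d bad) {k : ℕ} (hk : 2 ≤ k) :
    Summable fun v => ‖pw (α v) k‖ ^ 2 * Real.log (q v) ^ 2 / (q v : ℝ) ^ k := by
  have hd := h.d_nonneg
  set δ : ℝ := 1 / (d + 1) with hδ
  have hδ0 : 0 < δ := by positivity
  have hk0 : (0 : ℝ) < k := by exact_mod_cast (by omega : 0 < k)
  have hs := h.summable (k := k) (by omega) (ε := k * δ / 2) (by positivity)
  refine Summable.of_nonneg_of_le (fun v => by positivity) (fun v => ?_)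
    (hs.mul_left (k * (4 / (k * δ)) ^ 2))
  have hq : (1 : ℝ) ≤ q v := by
    have := h.two_le v
    exact_mod_cast (by omega : 1 ≤ q v)
  have hq0 : (0 : ℝ) < q v := by linarith
  obtain ⟨j, hj⟩ : ∃ j, k = j + 1 := ⟨k - 1, by omega⟩
  have h4 : ‖pw (α v) k‖ ^ 2 ≤ k * (rsLoc (α v) k).re := by
    rw [hj]
    have := (rsLoc_nonneg (α v) j).2.2
    push_cast
    exact this
  have h5 : Real.log (q v) ≤ 4 / (k * δ) * (q v : ℝ) ^ (k * δ / 4) := by
    have := Real.log_le_rpow_div (x := (q v : ℝ)) hq0.le (ε := k * δ / 4) (by positivity)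
    refine this.trans (le_of_eq ?_)
    field_simp
  have h6 : Real.log (q v) ^ 2 ≤ (4 / (k * δ)) ^ 2 * (q v : ℝ) ^ (k * δ / 2) := by
    refine (pow_le_pow_left₀ (Real.log_nonneg hq) h5 2).trans (le_of_eq ?_)
    rw [mul_pow, ← Real.rpow_natCast ((q v : ℝ) ^ (k * δ / 4)), ← Real.rpow_mul hq0.le]
    congr 2
    push_cast
    ring
  have h7 : 0 ≤ (rsLoc (α v) k).re := (rsLoc_nonneg _ _).2.1
  have h8 : (q v : ℝ) ^ (k * δ / 2) / (q v : ℝ) ^ k = (q v : ℝ) ^ (-(bet d k + k * δ / 2)) := by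
    rw [← Real.rpow_natCast, ← Real.rpow_sub hq0]
    congr 1
    unfold bet
    rw [if_neg (by omega)]
    ring
  calc ‖pw (α v) k‖ ^ 2 * Real.log (q v) ^ 2 / (q v : ℝ) ^ k
      ≤ (k * (rsLoc (α v) k).re) * ((4 / (k * δ)) ^ 2 * (q v : ℝ) ^ (k * δ / 2)) / (q v : ℝ) ^ k := by
        gcongr
    _ = k * (4 / (k * δ)) ^ 2 * ((rsLoc (α v) k).re *
        ((q v : ℝ) ^ (k * δ / 2) / (q v : ℝ) ^ k)) := by ring
    _ = _ := by rw [h8]

end

end Pool.Agent.W189.RS
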