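import Mathlib
import Pool.Agent.W189.RS.Place

/-! Number fields. -/

set_option autoImplicit false

namespace Pool.Agent.W189.RS

open Filter Topology IsDedekindDomain NumberField

/-- the norm of the integral ideal with exponents `f` -/
noncomputable def normD {K : Type} [Field K] [NumberField K] {S : Finset (HeightOneSpectrum (𝓞 K))}
    (f : {v : HeightOneSpectrum (𝓞 K) // v ∉ S} →₀ ℕ) : ℕ :=
  f.prod fun v k => Ideal.absNorm v.1.asIdeal ^ k

/-- The coefficient of the partial Rankin-Selberg `L`-series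
`∏_v ∏_{i,j} (1 - α_{i,v} conj(α_{j,v}) q_v^{-s})⁻¹` at the integral ideal with exponents `f`. -/
noncomputable def rsCoefD {K : Type} [Field K] [NumberField K]
    {S : Finset (HeightOneSpectrum (𝓞 K))} {n : ℕ}
    (α : {v : HeightOneSpectrum (𝓞 K) // v ∉ S} → Fin n → ℂ)
    (f : {v : HeightOneSpectrum (𝓞 K) // v ∉ S} →₀ ℕ) : ℝ :=
  f.prod fun v k => (rsLoc (α v) k).re

/-- `max_i |log |α_{i,v}|| / log q_v` -/
noncomputable def thetaD {K : Type} [Field K] [NumberField K]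
    {S : Finset (HeightOneSpectrum (𝓞 K))} {n : ℕ}
    (α : {v : HeightOneSpectrum (𝓞 K) // v ∉ S} → Fin n → ℂ)
    (v : {v : HeightOneSpectrum (𝓞 K) // v ∉ S}) : ℝ :=
  ⨆ i, |Real.logb (Ideal.absNorm v.1.asIdeal) ‖α v i‖|

/-- The properties of the Satake parameters `α v`, `v ∉ S`, of a unitary cuspidal automorphic
representation of `GL_n` over `K` that are used. -/
structure CuspParams (K : Type) [Field K] [NumberField K] {S : Finset (HeightOneSpectrum (𝓞 K))}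
    {n : ℕ} (α : {v : HeightOneSpectrum (𝓞 K) // v ∉ S} → Fin n → ℂ) (bad : Finset ℕ) : Prop where
  unit : ∀ v, Unitary (α v)
  abs : ∀ σ : ℝ, 1 < σ → Summable fun f => rsCoefD α f * (normD f : ℝ) ^ (-σ)
  twist : Conv (rsCoefD α) normD ((n : ℝ) ^ 2 * Module.finrank ℚ K) bad

section

variable {K : Type} [Field K] [NumberField K] {S : Finset (HeightOneSpectrum (𝓞 K))} {n : ℕ}
  {α : {v : HeightOneSpectrum (𝓞 K) // v ∉ S} → Fin n → ℂ} {bad : Finset ℕ}

theorem two_le_absNorm (v : HeightOneSpectrum (𝓞 K)) : 2 ≤ Ideal.absNorm v.asIdeal := by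
  have h0 : Ideal.absNorm v.asIdeal ≠ 0 := by
    rw [ne_eq, Ideal.absNorm_eq_zero_iff]
    exact v.ne_bot
  have h1 : Ideal.absNorm v.asIdeal ≠ 1 := by
    rw [ne_eq, Ideal.absNorm_eq_one_iff]
    exact v.isPrime.ne_top
  omega

theorem finite_absNorm (b : ℕ) : {v : HeightOneSpectrum (𝓞 K) | Ideal.absNorm v.asIdeal ≤ b}.Finite := by
  have h1 : Set.Finite {I : Ideal (𝓞 K) | Ideal.absNorm I ≤ b} := Ideal.finite_setOfPred_absNorm_le b
  refine (h1.preimage (f := fun v : HeightOneSpectrum (𝓞 K) => v.asIdeal)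
    (fun v _ w _ h => HeightOneSpectrum.ext h)).subset ?_
  intro v hv
  exact hv

theorem countable_places : Countable (HeightOneSpectrum (𝓞 K)) := by
  have h1 : (Set.univ : Set (HeightOneSpectrum (𝓞 K))) =
      ⋃ b : ℕ, {v | Ideal.absNorm v.asIdeal ≤ b} := by
    ext v
    simp only [Set.mem_univ, Set.mem_iUnion, Set.mem_ofPred_eq, true_iff]
    exact ⟨_, le_rfl⟩
  have h2 : (Set.univ : Set (HeightOneSpectrum (𝓞 K))).Countable := by
    rw [h1]
    exact Set.countable_iUnion fun b => (finite_absNorm b).countable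
  exact Set.countable_univ_iff.1 h2

theorem CuspParams.sys (h : CuspParams K α bad) :
    Sys (P := {v : HeightOneSpectrum (𝓞 K) // v ∉ S}) (fun v => Ideal.absNorm v.1.asIdeal) α
      (rsCoefD α) normD (fun v k => Finsupp.single v k)
      ((n : ℝ) ^ 2 * Module.finrank ℚ K) bad where
  two_le := fun v => two_le_absNorm v.1
  fin := fun b => ((finite_absNorm (K := K) b).preimage
    (f := fun v : {v : HeightOneSpectrum (𝓞 K) // v ∉ S} => v.1)
    (fun v _ w _ h => Subtype.ext h)).subset fun v hv => hv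
  unit := h.unit
  norm := fun v k _ => by
    unfold normD
    rw [Finsupp.prod_single_index (by simp)]
  coeff := fun v k _ => by
    unfold rsCoefD
    rw [Finsupp.prod_single_index (by simp [rsLoc_zero])]
  inj := fun k hk v w hvw => (Finsupp.single_left_inj (by omega)).1 hvw
  nonneg := fun f => by
    unfold rsCoefD
    exact Finset.prod_nonneg fun v _ => (rsLoc_nonneg _ _).2.1
  zero := fun f hf => by
    exfalso
    unfold normD at hf
    rw [Finsupp.prod, Finset.prod_eq_zero_iff] at hf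
    obtain ⟨v, _, hv⟩ := hf
    have := two_le_absNorm v.1
    exact absurd hv (pow_ne_zero _ (by omega))
  abs := h.abs
  d_nonneg := by positivity
  conv := h.twist

theorem thetaD_exc (hU : ∀ v, Unitary (α v)) {θ : ℝ} (hθ : 0 < θ)
    {v : {v : HeightOneSpectrum (𝓞 K) // v ∉ S}} (h : θ ≤ thetaD α v) :
    Exc (fun v : {v : HeightOneSpectrum (𝓞 K) // v ∉ S} => Ideal.absNorm v.1.asIdeal) α θ v := by
  have h2 := two_le_absNorm v.1
  have hp1 : (1 : ℝ) < (Ideal.absNorm v.1.asIdeal : ℕ) := by exact_mod_cast (by omega)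
  rcases Nat.eq_zero_or_pos n with hn | hn
  · subst hn
    unfold thetaD at h
    rw [Real.iSup_of_isEmpty] at h
    linarith
  have : Nonempty (Fin n) := ⟨⟨0, hn⟩⟩
  obtain ⟨i, hi⟩ := exists_eq_ciSup_of_finite
    (f := fun i => |Real.logb (Ideal.absNorm v.1.asIdeal) ‖α v i‖|)
  have h1 : θ ≤ |Real.logb (Ideal.absNorm v.1.asIdeal) ‖α v i‖| := by
    rw [hi]
    exact h
  have hpos : ∀ i, 0 < ‖α v i‖ := fun i => norm_pos_iff.2 ((hU v).1 i)
  rcases le_abs.1 h1 with h2 | h2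
  · exact ⟨i, (Real.le_logb_iff_rpow_le hp1 (hpos i)).1 h2⟩
  · have h3 : ((starRingEnd ℂ) (α v i))⁻¹ ∈ Multiset.map (α v) Finset.univ.val := by
      rw [← (hU v).2]
      exact Multiset.mem_map.2 ⟨i, Finset.mem_univ_val _, rfl⟩
    obtain ⟨j, _, hj⟩ := Multiset.mem_map.1 h3
    refine ⟨j, ?_⟩
    rw [hj, norm_inv, RCLike.norm_conj]
    have h4 : θ ≤ Real.logb (Ideal.absNorm v.1.asIdeal) (‖α v i‖⁻¹) := by
      rw [Real.logb_inv]
      exact h2
    exact (Real.le_logb_iff_rpow_le hp1 (inv_pos.2 (hpos i))).1 h4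

theorem field_main (h : CuspParams K α bad) :
    (∀ θ : ℝ, 0 < θ → 2 * θ ≤ 1 - 1 / ((n : ℝ) ^ 2 * Module.finrank ℚ K + 1) → ∀ ε : ℝ, 0 < ε →
      ∃ C : ℝ, ∀ x : ℝ, 1 ≤ x →
      (({v | (Ideal.absNorm v.1.asIdeal : ℝ) ≤ x ∧ θ ≤ thetaD α v}.ncard : ℕ) : ℝ) ≤
        C * (x ^ (1 - 2 * θ + ε) + x ^ (((n / 2 : ℕ) : ℝ) *
          (1 - 1 / ((n : ℝ) ^ 2 * Module.finrank ℚ K + 1) - 2 * θ) + ε))) ∧
    (∀ θ : ℝ, 0 < θ →
      ((n / 2 : ℕ) : ℝ) * (1 - 1 / ((n : ℝ) ^ 2 * Module.finrank ℚ K + 1) - 2 * θ) < 1 →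
      ∃ η C : ℝ, 0 < η ∧ ∀ x : ℝ, 1 ≤ x →
        (({v | (Ideal.absNorm v.1.asIdeal : ℝ) ≤ x ∧ θ ≤ thetaD α v}.ncard : ℕ) : ℝ) ≤
          C * x ^ (1 - η)) ∧
    ∀ k : ℕ, 2 ≤ k → Summable fun v => ‖∑ i, α v i ^ k‖ ^ 2 *
      Real.log (Ideal.absNorm v.1.asIdeal) ^ 2 / (Ideal.absNorm v.1.asIdeal : ℝ) ^ k := by
  have := countable_places (K := K)
  have hle : ∀ θ : ℝ, 0 < θ → ∀ x : ℝ,
      {v | (Ideal.absNorm v.1.asIdeal : ℝ) ≤ x ∧ θ ≤ thetaD α v}.ncard ≤
      {v | ((Ideal.absNorm v.1.asIdeal : ℕ) : ℝ) ≤ x ∧ Exc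
        (fun v : {v : HeightOneSpectrum (𝓞 K) // v ∉ S} => Ideal.absNorm v.1.asIdeal) α θ v}.ncard := by
    intro θ hθ x
    refine Set.ncard_le_ncard (fun v hv => ⟨hv.1, thetaD_exc h.unit hθ hv.2⟩)
      ((h.sys.fin_le x).subset fun v hv => hv.1)
  refine ⟨fun θ hθ hθ2 ε hε => ?_, fun θ hθ hθ2 => ?_, fun k hk => ?_⟩
  · obtain ⟨C, _, hC⟩ := h.sys.count hθ hθ2 hε
    refine ⟨C, fun x hx => le_trans ?_ (hC x hx)⟩
    exact_mod_cast hle θ hθ x
  · rcases Nat.eq_zero_or_pos n with hn | hn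
    · subst hn
      refine ⟨1, 0, one_pos, fun x hx => ?_⟩
      have : {v | (Ideal.absNorm v.1.asIdeal : ℝ) ≤ x ∧ θ ≤ thetaD α v} = ∅ := by
        ext p
        simp only [Set.mem_ofPred_eq, Set.mem_empty_iff_false, iff_false]
        rintro ⟨_, h3⟩
        unfold thetaD at h3
        rw [Real.iSup_of_isEmpty] at h3
        linarith
      rw [this]
      simp
    · have hn0 : (0 : ℝ) < (n : ℝ) ^ 2 * Module.finrank ℚ K := by
        have h1 : (0 : ℝ) < n := by exact_mod_cast hn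
        have h2 : (0 : ℝ) < Module.finrank ℚ K := by exact_mod_cast Module.finrank_pos
        positivity
      obtain ⟨η, C, hη, _, hC⟩ := h.sys.saving hn0 hθ hθ2
      refine ⟨η, C, hη, fun x hx => le_trans ?_ (hC x hx)⟩
      exact_mod_cast hle θ hθ x
  · exact h.sys.hypH hk

end

end Pool.Agent.W189.RS
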